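import Pool.Agent.R296.MB.E
import Pool.Agent.R296.NR.C
import Pool.Agent.R296.NR.E

/-!
# Short-interval Möbius disjointness for rotations of homogeneous spaces of any step: thin sets of central directions,
most starting points (helper296)

`G` is any Hausdorff topological group, for example a nilpotent Lie group of any step, `Γ` a closed cocompact subgroup, `Z` a
central subgroup which meets `Γ` cocompactly. For every compact subset `E` of `Z` which is thin (for example compact of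
measure zero if `Z` is a line) and for all `g₀` in a compact set, the supremum over all rotations by elements of `g₀ E`,
and over all starting points in the `Z`-orbit of `x`, of the correlation of `f(g^(n+h) x)` with the Möbius function in
short intervals is small on average, for most points `x` of each orbit of `g₀`, and for most `x` with respect to each
`g₀`-invariant probability measure, in particular the Haar measure of `G/Γ`.
-/

set_option autoImplicit false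

open Finset Filter Topology MeasureTheory

namespace Pool.Agent.Results.MP_663568_nt.MostStartingPoints

open Classical in
/-- `A` has logarithmic density zero -/
def LogDensityZero (A : Set ℕ) : Prop := Tendsto
  (fun X : ℕ => (∑ n ∈ Icc 1 X, if n ∈ A then (1 : ℝ) / n else 0) / Real.log X) atTop (𝓝 0)

/-- the Möbius function -/
def mu (n : ℕ) : ℤ := ArithmeticFunction.moebius n

/-- the Liouville function -/
def lam (n : ℕ) : ℤ := (-1) ^ ArithmeticFunction.cardFactors n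

/-- `E` is thin: for each neighbourhood `U` of the identity and each `δ > 0` there are a length `H` and at most `δ H`
elements of `E` such that each `e` in `E` has one of them, `a`, with `(e a⁻¹)^m` in `U` for all `m < H`. If the group is
the real line this says that `E` is covered by `o(H)` intervals of length `1/H`, for arbitrarily large `H`. -/
def Thin {G : Type} [Group G] [TopologicalSpace G] (E : Set G) : Prop :=
  ∀ U ∈ 𝓝 (1 : G), ∀ δ : ℝ, 0 < δ → ∃ H : ℕ, 1 ≤ H ∧ ∃ s : Finset G, (∀ a ∈ s, a ∈ E) ∧ (s.card : ℝ) ≤ δ * H ∧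
    ∀ e ∈ E, ∃ a ∈ s, ∀ m < H, (e * a⁻¹) ^ m ∈ U

/-- The supremum of `|∑_{h ≤ H} f(g^(h+n) x) u(n+h)|` over all `g` in `g₀ E` and all points `x` of the `Z`-orbit of
`x₀`. (It is at most `H ‖f‖` for `|u| ≤ 1`.) -/
noncomputable def windowSup {G : Type} [Group G] [TopologicalSpace G] {Γ : Subgroup G}
    (Z : Subgroup G) (E : Set G) (g₀ : G) (f : C(G ⧸ Γ, ℂ)) (u : ℕ → ℤ) (x₀ : G ⧸ Γ) (n H : ℕ) : ℝ :=
  ⨆ p : E × Z, ‖∑ h ∈ Icc 1 H, f ((g₀ * (p.1 : G)) ^ (h + n) • (p.2 : G) • x₀) * ((u (n + h) : ℤ) : ℂ)‖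

/-- Uniformly over `g₀` in `C` and `x₀`, for `M ≥ N` and for all `l < M` outside of a set of at most `ε M` elements the
mean of the suprema over `g` in `g₀ E` and `x` in the `Z`-orbit of `g₀^l x₀` is at most `ε H`: the mean over `n ≤ N` for
`N` outside of `A`, and the logarithmic mean for all `N`. -/
def MostShifts (A : Set ℕ) {G : Type} [Group G] [TopologicalSpace G] {Γ : Subgroup G}
    (Z : Subgroup G) (E C : Set G) (f : C(G ⧸ Γ, ℂ)) (u : ℕ → ℤ) : Prop :=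
  ∀ ε : ℝ, 0 < ε →
    (∃ H₀ : ℕ, ∀ H ≥ H₀, ∃ N₀ : ℕ, ∀ N ≥ N₀, N ∉ A → ∀ M ≥ N, ∀ g₀ ∈ C, ∀ x₀ : G ⧸ Γ, ∃ V : Finset ℕ,
      (V.card : ℝ) ≤ ε * M ∧ ∀ l < M, l ∉ V →
      ∑ n ∈ Icc 1 N, windowSup Z E g₀ f u (g₀ ^ l • x₀) n H ≤ ε * (H * N)) ∧
    ∃ H₀ : ℕ, ∀ H ≥ H₀, ∃ N₀ : ℕ, ∀ N ≥ N₀, ∀ M ≥ N, ∀ g₀ ∈ C, ∀ x₀ : G ⧸ Γ, ∃ V : Finset ℕ,
      (V.card : ℝ) ≤ ε * M ∧ ∀ l < M, l ∉ V →
      ∑ n ∈ Icc 1 N, 1 / (n : ℝ) * windowSup Z E g₀ f u (g₀ ^ l • x₀) n H ≤ ε * (H * Real.log N)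

/-- The same for the probability measures `ρ` on `G/Γ` invariant under `g₀` (for example the one invariant under `G`):
the bounds hold for all starting points `x₀` outside of a set of `ρ`-measure at most `ε`, uniformly over `g₀` in `C` and
over `ρ`. -/
def MostPoints (A : Set ℕ) {G : Type} [Group G] [TopologicalSpace G] {Γ : Subgroup G}
    (Z : Subgroup G) (E C : Set G) (f : C(G ⧸ Γ, ℂ)) (u : ℕ → ℤ) : Prop :=
  ∀ [MeasurableSpace (G ⧸ Γ)] [BorelSpace (G ⧸ Γ)], ∀ ε : ℝ, 0 < ε → ∃ H₀ : ℕ, ∀ H ≥ H₀, ∃ N₀ : ℕ, ∀ N ≥ N₀,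
    ∀ g₀ ∈ C, ∀ ρ : Measure (G ⧸ Γ), IsProbabilityMeasure ρ → MeasurePreserving (fun x => g₀ • x) ρ ρ →
    (N ∉ A → ρ {x₀ | ε * (H * N) < ∑ n ∈ Icc 1 N, windowSup Z E g₀ f u x₀ n H} ≤ ENNReal.ofReal ε) ∧
    ρ {x₀ | ε * (H * Real.log N) < ∑ n ∈ Icc 1 N, 1 / (n : ℝ) * windowSup Z E g₀ f u x₀ n H} ≤ ENNReal.ofReal ε

/-- `Γ` is a closed cocompact subgroup of `G`, and `Z` a central subgroup, cocompact modulo `Z ∩ Γ`. For a simply
connected nilpotent Lie group `G` with a lattice `Γ` this holds for the centre `Z` (Malcev). -/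
def CentralPair {G : Type} [Group G] [TopologicalSpace G] (Γ Z : Subgroup G) : Prop :=
  IsClosed (Γ : Set G) ∧ CompactSpace (G ⧸ Γ) ∧ (∀ z ∈ Z, ∀ g : G, z * g = g * z) ∧
    ∃ L : Set G, IsCompact L ∧ L ⊆ Z ∧ ∀ z ∈ Z, ∃ l ∈ L, ∃ γ ∈ Γ, z = l * γ

/-- all conclusions -/
def Conclusion (A : Set ℕ) {G : Type} [Group G] [TopologicalSpace G] {Γ : Subgroup G}
    (Z : Subgroup G) (E C : Set G) (f : C(G ⧸ Γ, ℂ)) : Prop :=
  MostShifts A Z E C f mu ∧ MostShifts A Z E C f lam ∧ MostPoints A Z E C f mu ∧ MostPoints A Z E C f lam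

/-- (A) compact thin sets `E` of central elements -/
def PartA (A : Set ℕ) : Prop :=
  ∀ (G : Type) [Group G] [TopologicalSpace G] [IsTopologicalGroup G] [T2Space G] (Γ Z : Subgroup G),
    CentralPair Γ Z → ∀ E C : Set G, E ⊆ Z → IsCompact E → Thin E → IsCompact C → ∀ f : C(G ⧸ Γ, ℂ),
    Conclusion A Z E C f

/-- (B) `E` is the image of a compact set of reals of Lebesgue measure zero under a continuous homomorphism `φ` from the
reals to `Z` -/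
def PartB (A : Set ℕ) : Prop :=
  ∀ (G : Type) [Group G] [TopologicalSpace G] [IsTopologicalGroup G] [T2Space G] (Γ Z : Subgroup G),
    CentralPair Γ Z → ∀ φ : ℝ → G, Continuous φ → (∀ s t, φ (s + t) = φ s * φ t) → (∀ t, φ t ∈ Z) →
    ∀ (E₀ : Set ℝ) (C : Set G), IsCompact E₀ → volume E₀ = 0 → IsCompact C → ∀ f : C(G ⧸ Γ, ℂ),
    Conclusion A Z (φ '' E₀) C f

open Pool.Agent.R296.RE Pool.Agent.R296.VC Pool.Agent.R296.NR Pool.Agent.R296.MB

/-- near-maximisers -/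
lemma choose_near {G : Type} [Group G] [TopologicalSpace G] {Γ : Subgroup G} (Z : Subgroup G) (E : Set G) (g₀ : G)
    (f : C(G ⧸ Γ, ℂ)) (u : ℕ → ℤ) (x₀ : G ⧸ Γ) (n H : ℕ) (hE : E.Nonempty) {η : ℝ} (hη : 0 < η) :
    ∃ p : E × Z, windowSup Z E g₀ f u x₀ n H ≤
      ‖∑ h ∈ Icc 1 H, f ((g₀ * (p.1 : G)) ^ (h + n) • (p.2 : G) • x₀) * ((u (n + h) : ℤ) : ℂ)‖ + η := by
  obtain ⟨e, he⟩ := hE
  have : Nonempty (E × Z) := ⟨(⟨e, he⟩, 1)⟩
  obtain ⟨p, hp⟩ := exists_lt_of_lt_ciSup (show windowSup Z E g₀ f u x₀ n H - η < windowSup Z E g₀ f u x₀ n H by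
    linarith)
  exact ⟨p, by linarith⟩

section

variable {G : Type} [Group G] [TopologicalSpace G] [IsTopologicalGroup G] {Γ Z : Subgroup G}

lemma window_eq (E C : Set G) (g₀ : G) (hg : g₀ ∈ C) (f : C(G ⧸ Γ, ℂ)) (u : ℕ → ℤ) (x₀ : G ⧸ Γ) (n H : ℕ)
    (p : E × Z) :
    ∑ h ∈ Icc 1 H, f ((g₀ * (p.1 : G)) ^ (h + n) • (p.2 : G) • x₀) * ((u (n + h) : ℤ) : ℂ) =
    ∑ m ∈ range H, tw u 0 (n + 1 + m) *
      f ((TT Γ E C)^[m] ((g₀ * (p.1 : G)) ^ (n + 1) • (p.2 : G) • x₀, (p.1, ⟨g₀, hg⟩))).1 := by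
  have h1 : Icc 1 H = Ico 1 (H + 1) := by
    ext k
    simp only [mem_Icc, mem_Ico]
    omega
  rw [h1, sum_Ico_eq_sum_range, Nat.add_sub_cancel]
  refine sum_congr rfl fun m _ => ?_
  rw [TT_iter]
  show f ((g₀ * (p.1 : G)) ^ (1 + m + n) • (p.2 : G) • x₀) * ((u (n + (1 + m)) : ℤ) : ℂ) =
    tw u 0 (n + 1 + m) * f ((g₀ * (p.1 : G)) ^ m • (g₀ * (p.1 : G)) ^ (n + 1) • (p.2 : G) • x₀)
  have h2 : (g₀ * (p.1 : G)) ^ m • (g₀ * (p.1 : G)) ^ (n + 1) • (p.2 : G) • x₀ =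
      (g₀ * (p.1 : G)) ^ (1 + m + n) • (p.2 : G) • x₀ := by
    rw [smul_smul ((g₀ * (p.1 : G)) ^ m), ← pow_add]
    congr 2
    omega
  rw [h2]
  have h3 : tw u 0 (n + 1 + m) = ((u (n + (1 + m)) : ℤ) : ℂ) := by
    unfold tw Pool.Agent.Helper602.MK.ee
    rw [zero_mul, Complex.ofReal_zero, mul_zero, zero_mul, Complex.exp_zero, mul_one, add_assoc]
  rw [h3, mul_comm]

open scoped Pointwise in
theorem shifts [T2Space G] {A : Set ℕ} (hA : LogDensityZero A) {u : ℕ → ℤ} (hu : ∀ n, |u n| ≤ 1) (hK : Kf u A)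
    (h2s : CentralPair Γ Z) {E C : Set G} (hEZ : E ⊆ Z) (hEc : IsCompact E) (hT : Thin E) (hCc : IsCompact C)
    (f : C(G ⧸ Γ, ℂ)) : MostShifts A Z E C f u := by
  classical
  obtain ⟨hΓ, hcpt, hZ, L, hL, hLZ, hL2⟩ := h2s
  have _ := hcpt
  have hEs : CompactSpace E := isCompact_iff_compactSpace.1 hEc
  have hCs : CompactSpace C := isCompact_iff_compactSpace.1 hCc
  have hKc : IsClosed ((Z ⊔ Γ : Subgroup G) : Set G) := by
    have h1 : ((Z ⊔ Γ : Subgroup G) : Set G) = L * (Γ : Set G) := by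
      ext x
      have _ : Z.Normal := ⟨fun n hn g => by rw [← hZ n hn g, mul_inv_cancel_right]; exact hn⟩
      constructor
      · intro hx
        obtain ⟨z, hz, γ, hγ, rfl⟩ := Subgroup.mem_sup_of_normal_left.1 hx
        obtain ⟨l, hl, γ', hγ', rfl⟩ := hL2 z hz
        exact ⟨l, hl, γ' * γ, mul_mem hγ' hγ, by simp [mul_assoc]⟩
      · rintro ⟨l, hl, γ, hγ, rfl⟩
        exact mul_mem (Subgroup.mem_sup_left (hLZ hl)) (Subgroup.mem_sup_right hγ)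
    rw [h1]
    exact IsClosed.mul_left_of_isCompact hΓ hL
  have hcY : CompactSpace (G ⧸ (Z ⊔ Γ)) := by
    refine Function.Surjective.compactSpace (qm_cont Γ (Z ⊔ Γ) le_sup_right) ?_
    intro y
    induction y using QuotientGroup.induction_on with
    | H a => exact ⟨(a : G ⧸ Γ), rfl⟩
  have hT2 : T2Space (G ⧸ (Z ⊔ Γ)) := inferInstance
  set S : (G ⧸ (Z ⊔ Γ)) × C → (G ⧸ (Z ⊔ Γ)) × C := fun q => ((q.2 : G) • q.1, q.2) with hS
  have hπT : ∀ x, pp Γ Z E C (TT Γ E C x) = S (pp Γ Z E C x) := by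
    intro x
    rw [pp_TT hZ hEZ]
    rfl
  have hπn : ∀ n x, pp Γ Z E C ((TT Γ E C)^[n] x) = S^[n] (pp Γ Z E C x) := by
    intro n x
    induction n with
    | zero => rfl
    | succ n ih => rw [Function.iterate_succ_apply', hπT, ih, Function.iterate_succ_apply']
  have hSn : ∀ (n : ℕ) (y : G ⧸ (Z ⊔ Γ)) (g : C), S^[n] (y, g) = ((g : G) ^ n • y, g) := by
    intro n y g
    induction n with
    | zero => simp
    | succ n ih =>
      rw [Function.iterate_succ_apply', ih]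
      show ((g : G) • (g : G) ^ n • y, g) = _
      rw [smul_smul, ← pow_succ']
  have hC : ∀ x : (G ⧸ Γ) × (E × C), ‖f x.1‖ ≤ ‖f‖ := fun x => ContinuousMap.norm_coe_le_norm f x.1
  have hwin := most_windows hu hK (S := S) (P := Set.univ) (TT_cont Γ E C) (pp_cont Γ Z E C) hπT
    (F := fun x : (G ⧸ Γ) × (E × C) => f x.1) (f.continuous.comp continuous_fst) (norm_nonneg f) hC (fun δ hδ => by
      obtain ⟨H, hH, h1⟩ := cov_two hZ hL hLZ hL2 hEZ hT C f δ hδ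
      exact ⟨H, hH, Set.univ, isClosed_univ, Mostly_univ hδ.le, fun y _ => h1 y⟩)
  have hW0 : ∀ (x : ℕ → (G ⧸ Γ) × (E × C)) H k,
      ‖∑ m ∈ range H, tw u 0 (k + m) * f ((TT Γ E C)^[m] (x k)).1‖ ≤ H * ‖f‖ := by
    intro x H k
    refine (norm_sum_le _ _).trans ((sum_le_sum (g := fun _ => ‖f‖) fun m _ => ?_).trans (le_of_eq ?_))
    · rw [norm_mul]
      calc ‖tw u 0 (k + m)‖ * _ ≤ 1 * ‖f‖ := mul_le_mul (norm_tw hu 0 _) (hC _) (norm_nonneg _) zero_le_one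
        _ = ‖f‖ := one_mul _
    · rw [sum_const, card_range, nsmul_eq_mul]
  intro ε hε
  rcases E.eq_empty_or_nonempty with hem | hne
  · subst hem
    have h0 : ∀ (g₀ : G) (x₀ : G ⧸ Γ) n H, windowSup Z (∅ : Set G) g₀ f u x₀ n H = 0 :=
      fun _ _ _ _ => Real.iSup_of_isEmpty _
    refine ⟨⟨0, fun H _ => ⟨0, fun N _ _ M _ g₀ _ x₀ => ⟨∅, ?_, fun l _ _ => ?_⟩⟩⟩,
      ⟨0, fun H _ => ⟨1, fun N hN M _ g₀ _ x₀ => ⟨∅, ?_, fun l _ _ => ?_⟩⟩⟩⟩
    · simp only [card_empty, Nat.cast_zero]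
      positivity
    · simp only [h0, sum_const_zero]
      positivity
    · simp only [card_empty, Nat.cast_zero]
      positivity
    · simp only [h0, mul_zero, sum_const_zero]
      have := Real.log_nonneg (show (1 : ℝ) ≤ N by exact_mod_cast hN)
      positivity
  -- the data for the near-maximisers
  have hdata : ∀ (g₀ : G) (hg : g₀ ∈ C) (x₀ : G ⧸ Γ) (l H : ℕ), 0 < H → ∃ x : ℕ → (G ⧸ Γ) × (E × C),
      (∀ k, pp Γ Z E C (x k) = S^[k] (S^[l] (qm Γ (Z ⊔ Γ) le_sup_right x₀, ⟨g₀, hg⟩))) ∧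
      ∀ n, windowSup Z E g₀ f u (g₀ ^ l • x₀) n H ≤
        ‖∑ m ∈ range H, tw u 0 (n + 1 + m) * f ((TT Γ E C)^[m] (x (n + 1))).1‖ + ε / 8 * H := by
    intro g₀ hg x₀ l H hH
    have hH0 : (0 : ℝ) < H := by exact_mod_cast hH
    choose p hp using fun n => choose_near Z E g₀ f u (g₀ ^ l • x₀) n H hne (show 0 < ε / 8 * H by positivity)
    refine ⟨fun k => ((g₀ * ((p (k - 1)).1 : G)) ^ k • ((p (k - 1)).2 : G) • g₀ ^ l • x₀,
      ((p (k - 1)).1, ⟨g₀, hg⟩)), fun k => ?_, fun n => ?_⟩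
    · have h1 : ((g₀ * ((p (k - 1)).1 : G)) ^ k • ((p (k - 1)).2 : G) • g₀ ^ l • x₀,
          ((p (k - 1)).1, (⟨g₀, hg⟩ : C))) =
          (TT Γ E C)^[k] (((p (k - 1)).2 : G) • g₀ ^ l • x₀, ((p (k - 1)).1, ⟨g₀, hg⟩)) := by rw [TT_iter]
      show pp Γ Z E C ((g₀ * ((p (k - 1)).1 : G)) ^ k • ((p (k - 1)).2 : G) • g₀ ^ l • x₀,
        ((p (k - 1)).1, ⟨g₀, hg⟩)) = _
      rw [h1, hπn, hSn l]
      congr 1
      show (qm Γ (Z ⊔ Γ) le_sup_right (((p (k - 1)).2 : G) • g₀ ^ l • x₀), (⟨g₀, hg⟩ : C)) = _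
      rw [qm_smul, smul_base hZ (p (k - 1)).2.2, qm_smul]
    · have h1 := hp n
      rw [window_eq E C g₀ hg] at h1
      simpa only [Nat.add_sub_cancel] using h1
  constructor
  · obtain ⟨H₀, h1⟩ := hwin (ε / 8) (by positivity)
    refine ⟨H₀ + 1, fun H hH => ?_⟩
    have hH0 : (0 : ℝ) < H := by exact_mod_cast (by omega : 0 < H)
    obtain ⟨N₀, h3⟩ := h1 H (by omega)
    obtain ⟨N₁, hN₁⟩ := exists_nat_ge (16 * ‖f‖ / ε)
    refine ⟨N₀ + N₁, fun N hN hNA M hM g₀ hg x₀ => ?_⟩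
    obtain ⟨V, hV1, hV2⟩ := h3 N (by omega) hNA M hM (qm Γ (Z ⊔ Γ) le_sup_right x₀, ⟨g₀, hg⟩) (Set.mem_univ _)
    have hM0 : (0 : ℝ) ≤ M := Nat.cast_nonneg M
    refine ⟨V, by nlinarith, fun l hl hlV => ?_⟩
    obtain ⟨x, hx, h2⟩ := hdata g₀ hg x₀ l H (by omega)
    have h4 := hV2 l hl hlV x hx 0
    set W : ℕ → ℝ := fun k => ‖∑ m ∈ range H, tw u 0 (k + m) * f ((TT Γ E C)^[m] (x k)).1‖ with hW
    have hWn : ∀ k, 0 ≤ W k := fun k => norm_nonneg _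
    have hW1 : ∀ k, W k ≤ H * ‖f‖ := fun k => hW0 x H k
    have h5 : ∑ n ∈ Icc 1 N, W (n + 1) ≤ ∑ k ∈ range (N + 2), W k := by
      rw [← sum_image (f := fun k : ℕ => W k) (g := fun n => n + 1) (s := Icc 1 N)
        fun a _ b _ hab => by simpa using hab]
      refine sum_le_sum_of_subset_of_nonneg ?_ fun k _ _ => hWn k
      intro k hk
      obtain ⟨n, hn, rfl⟩ := mem_image.1 hk
      rw [mem_Icc] at hn
      rw [mem_range]
      omega
    rw [sum_range_succ, sum_range_succ] at h5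
    have h6 : ∑ k ∈ range N, W k ≤ ε / 8 * (H * N) := h4
    have h7 : (16 * ‖f‖ / ε : ℝ) ≤ N := hN₁.trans (by exact_mod_cast (by omega : N₁ ≤ N))
    rw [div_le_iff₀ hε] at h7
    have h8 : (H : ℝ) * ‖f‖ ≤ ε / 16 * (H * N) := by nlinarith
    have h9 := hW1 N
    have h10 := hW1 (N + 1)
    calc ∑ n ∈ Icc 1 N, windowSup Z E g₀ f u (g₀ ^ l • x₀) n H ≤ ∑ n ∈ Icc 1 N, (W (n + 1) + ε / 8 * H) :=
          sum_le_sum fun n _ => h2 n
      _ = ∑ n ∈ Icc 1 N, W (n + 1) + N * (ε / 8 * H) := by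
          rw [sum_add_distrib, sum_const, Nat.card_Icc, nsmul_eq_mul, Nat.add_sub_cancel]
      _ ≤ ε * (H * N) := by
          have : 0 ≤ ε * (H * N) := by positivity
          linarith
  · obtain ⟨ε₁, hε₁, hlog⟩ := log_abs (ε := ε / 8) (C := ‖f‖) (by positivity) (norm_nonneg f)
    obtain ⟨H₀, h1⟩ := hwin (ε₁ / 2) (by positivity)
    refine ⟨H₀ + 1, fun H hH => ?_⟩
    have hH0 : (0 : ℝ) < H := by exact_mod_cast (by omega : 0 < H)
    obtain ⟨N₀, h3⟩ := h1 H (by omega)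
    obtain ⟨N₁, hN₁⟩ := exists_nat_ge (2 * ‖f‖ / ε₁)
    -- the family of normalised windows
    set 𝓕 : ((G ⧸ (Z ⊔ Γ)) × C) → ℕ → Set (ℕ → ℝ) := fun y l => {a | ∃ x : ℕ → (G ⧸ Γ) × (E × C),
      (∀ n, pp Γ Z E C (x n) = S^[n] (S^[l] y)) ∧
      a = fun k => 1 / (H : ℝ) * ‖∑ m ∈ range H, tw u 0 (k + m) * f ((TT Γ E C)^[m] (x k)).1‖} with h𝓕
    obtain ⟨N₂, h4⟩ := hlog hA Set.univ 𝓕 (by
      rintro y l _ ⟨x, hx, rfl⟩ n
      refine ⟨by positivity, ?_⟩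
      rw [one_div, inv_mul_le_iff₀ hH0]
      exact hW0 x H n) ⟨N₀ + N₁, by
      intro N hN hNE M hM y _
      obtain ⟨V, hV1, hV2⟩ := h3 N (by omega) hNE M hM y (Set.mem_univ _)
      have hM0 : (0 : ℝ) ≤ M := Nat.cast_nonneg M
      refine ⟨V, by nlinarith, ?_⟩
      rintro l hl hlV _ ⟨x, hx, rfl⟩
      have h5 := hV2 l hl hlV x hx 0
      set W : ℕ → ℝ := fun k => ‖∑ m ∈ range H, tw u 0 (k + m) * f ((TT Γ E C)^[m] (x k)).1‖ with hW
      have h6 : ∑ n ∈ Icc 1 N, W n ≤ ∑ n ∈ range (N + 1), W n :=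
        sum_le_sum_of_subset_of_nonneg (fun m hm => by
          rw [mem_Icc] at hm
          exact mem_range.2 (by omega)) fun m _ _ => norm_nonneg _
      rw [sum_range_succ] at h6
      have h7 : W N ≤ H * ‖f‖ := hW0 x H N
      have h8 : (2 * ‖f‖ / ε₁ : ℝ) ≤ N := hN₁.trans (by exact_mod_cast (by omega : N₁ ≤ N))
      rw [div_le_iff₀ hε₁] at h8
      have h9 : (H : ℝ) * ‖f‖ ≤ ε₁ / 2 * (H * N) := by nlinarith
      have h10 : ∑ n ∈ range N, W n ≤ ε₁ / 2 * (H * N) := h5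
      show ∑ n ∈ Icc 1 N, 1 / (H : ℝ) * W n ≤ ε₁ * N
      rw [← mul_sum, one_div, inv_mul_le_iff₀ hH0]
      linarith⟩
    obtain ⟨N₃, hN₃⟩ := exists_nat_ge (8 * ‖f‖ / ε)
    refine ⟨N₂ + N₃ + 3, fun N hN M hM g₀ hg x₀ => ?_⟩
    obtain ⟨V, hV1, hV2⟩ := h4 N (by omega) M hM (qm Γ (Z ⊔ Γ) le_sup_right x₀, ⟨g₀, hg⟩) (Set.mem_univ _)
    have hM0 : (0 : ℝ) ≤ M := Nat.cast_nonneg M
    have hN3 : (3 : ℝ) ≤ N := by exact_mod_cast (by omega : 3 ≤ N)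
    have hlogN : 1 ≤ Real.log N := by
      rw [Real.le_log_iff_exp_le (by linarith)]
      linarith [Real.exp_one_lt_d9]
    refine ⟨V, by nlinarith, fun l hl hlV => ?_⟩
    obtain ⟨x, hx, h2⟩ := hdata g₀ hg x₀ l H (by omega)
    set W : ℕ → ℝ := fun k => ‖∑ m ∈ range H, tw u 0 (k + m) * f ((TT Γ E C)^[m] (x k)).1‖ with hW
    have hWn : ∀ k, 0 ≤ W k := fun k => norm_nonneg _
    have h5 : ∑ n ∈ Icc 1 N, 1 / (n : ℝ) * (1 / (H : ℝ) * W n) ≤ ε / 8 * Real.log N := hV2 l hl hlV _ ⟨x, hx, rfl⟩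
    have h6 : ∑ n ∈ Icc 1 N, 1 / (n : ℝ) * W n ≤ ε / 8 * (H * Real.log N) := by
      have e1 : ∑ n ∈ Icc 1 N, 1 / (n : ℝ) * W n = H * ∑ n ∈ Icc 1 N, 1 / (n : ℝ) * (1 / (H : ℝ) * W n) := by
        rw [mul_sum]
        refine sum_congr rfl fun n _ => ?_
        field_simp
      rw [e1]
      have := mul_le_mul_of_nonneg_left h5 hH0.le
      linarith
    have h7 : ∑ n ∈ Icc 1 N, 1 / ((n + 1 : ℕ) : ℝ) * W (n + 1) ≤
        ∑ k ∈ Icc 1 N, 1 / (k : ℝ) * W k + 1 / ((N + 1 : ℕ) : ℝ) * W (N + 1) := by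
      have e1 : ∑ n ∈ Icc 1 N, 1 / ((n + 1 : ℕ) : ℝ) * W (n + 1) ≤ ∑ k ∈ Icc 1 (N + 1), 1 / (k : ℝ) * W k := by
        rw [← sum_image (f := fun k : ℕ => 1 / (k : ℝ) * W k) (g := fun n => n + 1) (s := Icc 1 N)
          fun a _ b _ hab => by simpa using hab]
        refine sum_le_sum_of_subset_of_nonneg ?_ fun k _ _ => mul_nonneg (by positivity) (hWn k)
        intro k hk
        obtain ⟨n, hn, rfl⟩ := mem_image.1 hk
        rw [mem_Icc] at hn ⊢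
        omega
      rwa [sum_Icc_succ_top (by omega)] at e1
    have h8 : 1 / ((N + 1 : ℕ) : ℝ) * W (N + 1) ≤ ε / 8 * (H * Real.log N) := by
      have e1 : W (N + 1) ≤ H * ‖f‖ := hW0 x H (N + 1)
      have e2 : (8 * ‖f‖ / ε : ℝ) ≤ N := hN₃.trans (by exact_mod_cast (by omega : N₃ ≤ N))
      rw [div_le_iff₀ hε] at e2
      rw [one_div, inv_mul_le_iff₀ (by positivity)]
      push_cast
      have e3 : (H : ℝ) * ‖f‖ ≤ H * (N * ε / 8) := mul_le_mul_of_nonneg_left (by linarith) hH0.le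
      have e4 : (H : ℝ) * (N * ε / 8) ≤ (N + 1) * (ε / 8 * (H * Real.log N)) := by
        have e5 : 0 ≤ ε / 8 * H := by positivity
        have e6 : (N : ℝ) ≤ (N + 1) * Real.log N := by nlinarith
        calc (H : ℝ) * (N * ε / 8) = ε / 8 * H * N := by ring
          _ ≤ ε / 8 * H * ((N + 1) * Real.log N) := mul_le_mul_of_nonneg_left e6 e5
          _ = _ := by ring
      linarith
    have h9 : ∀ n ∈ Icc 1 N, 1 / (n : ℝ) * windowSup Z E g₀ f u (g₀ ^ l • x₀) n H ≤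
        2 * (1 / ((n + 1 : ℕ) : ℝ) * W (n + 1)) + ε / 8 * H * (1 / n) := by
      intro n hn
      rw [mem_Icc] at hn
      have hn1 : (1 : ℝ) ≤ n := by exact_mod_cast hn.1
      have h5 := mul_le_mul_of_nonneg_left (h2 n) (show (0 : ℝ) ≤ 1 / n by positivity)
      have h6 : (1 : ℝ) / n ≤ 2 * (1 / ((n + 1 : ℕ) : ℝ)) := by
        push_cast
        rw [mul_one_div, div_le_div_iff₀ (by linarith) (by linarith)]
        linarith
      have h7 : 1 / (n : ℝ) * W (n + 1) ≤ 2 * (1 / ((n + 1 : ℕ) : ℝ)) * W (n + 1) :=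
        mul_le_mul_of_nonneg_right h6 (hWn _)
      have h8 : 1 / (n : ℝ) * (W (n + 1) + ε / 8 * H) = 1 / (n : ℝ) * W (n + 1) + ε / 8 * H * (1 / n) := by ring
      have h9 : 1 / (n : ℝ) * windowSup Z E g₀ f u (g₀ ^ l • x₀) n H ≤ 1 / (n : ℝ) * (W (n + 1) + ε / 8 * H) := h5
      linarith
    have h10 := Pool.Agent.R296.SM.harm_le N
    calc ∑ n ∈ Icc 1 N, 1 / (n : ℝ) * windowSup Z E g₀ f u (g₀ ^ l • x₀) n H
        ≤ ∑ n ∈ Icc 1 N, (2 * (1 / ((n + 1 : ℕ) : ℝ) * W (n + 1)) + ε / 8 * H * (1 / n)) := sum_le_sum h9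
      _ = 2 * ∑ n ∈ Icc 1 N, 1 / ((n + 1 : ℕ) : ℝ) * W (n + 1) + ε / 8 * H * ∑ n ∈ Icc 1 N, 1 / (n : ℝ) := by
          rw [sum_add_distrib, mul_sum, mul_sum]
      _ ≤ 2 * (ε / 8 * (H * Real.log N) + ε / 8 * (H * Real.log N)) + ε / 8 * H * (2 * Real.log N) :=
          add_le_add (mul_le_mul_of_nonneg_left (h7.trans (add_le_add h6 h8)) (by norm_num))
            (mul_le_mul_of_nonneg_left (by linarith) (by positivity))
      _ ≤ ε * (H * Real.log N) := by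
          have : 0 ≤ ε * (H * Real.log N) := by positivity
          linarith

/-- the suprema are lower semicontinuous functions of the starting point -/
lemma win_lsc {u : ℕ → ℤ} (hu : ∀ n, |u n| ≤ 1) (Z : Subgroup G) (E : Set G) (g₀ : G) [CompactSpace (G ⧸ Γ)]
    (f : C(G ⧸ Γ, ℂ)) (n H : ℕ) : LowerSemicontinuous fun x₀ => windowSup Z E g₀ f u x₀ n H := by
  unfold windowSup
  refine lowerSemicontinuous_ciSup (fun x => ⟨H * ‖f‖, ?_⟩) fun p => ?_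
  · rintro _ ⟨p, rfl⟩
    refine (norm_sum_le _ _).trans ((sum_le_sum (g := fun _ => ‖f‖) fun m _ => ?_).trans (le_of_eq ?_))
    · rw [norm_mul]
      have h1 : ‖((u (n + m) : ℤ) : ℂ)‖ ≤ 1 := by
        rw [Complex.norm_intCast]
        exact_mod_cast hu (n + m)
      calc _ ≤ ‖f‖ * 1 := mul_le_mul (ContinuousMap.norm_coe_le_norm f _) h1 (norm_nonneg _) (norm_nonneg _)
        _ = ‖f‖ := mul_one _
    · rw [sum_const, Nat.card_Icc, nsmul_eq_mul, Nat.add_sub_cancel]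
  · refine Continuous.lowerSemicontinuous ?_
    fun_prop

theorem points {A : Set ℕ} {u : ℕ → ℤ} (hu : ∀ n, |u n| ≤ 1) (h2s : CentralPair Γ Z) {E C : Set G}
    (f : C(G ⧸ Γ, ℂ)) (hs : MostShifts A Z E C f u) : MostPoints A Z E C f u := by
  have _ := h2s.2.1
  intro _ _ ε hε
  obtain ⟨⟨H₁, h1⟩, ⟨H₂, h2⟩⟩ := hs ε hε
  refine ⟨H₁ + H₂, fun H hH => ?_⟩
  obtain ⟨N₁, h3⟩ := h1 H (by omega)
  obtain ⟨N₂, h4⟩ := h2 H (by omega)
  refine ⟨N₁ + N₂ + 1, fun N hN g₀ hg ρ hρ hS => ⟨fun hNA => ?_, ?_⟩⟩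
  · have hl : LowerSemicontinuous fun x₀ => ∑ n ∈ Icc 1 N, windowSup Z E g₀ f u x₀ n H :=
      lowerSemicontinuous_sum fun n _ => win_lsc hu Z E g₀ f n H
    refine meas_of_most hS (hl.isOpen_preimage _).measurableSet N (by omega) hε.le fun y => ?_
    obtain ⟨V, hV1, hV2⟩ := h3 N (by omega) hNA N le_rfl g₀ hg y
    refine ⟨V, hV1, fun l hl hlV hy => ?_⟩
    have h5 : ε * (H * N) < ∑ n ∈ Icc 1 N, windowSup Z E g₀ f u ((fun x => g₀ • x)^[l] y) n H := hy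
    rw [smul_iterate] at h5
    exact absurd (hV2 l hl hlV) (not_le.2 h5)
  · have hl : LowerSemicontinuous fun x₀ => ∑ n ∈ Icc 1 N, 1 / (n : ℝ) * windowSup Z E g₀ f u x₀ n H := by
      refine lowerSemicontinuous_sum fun n _ => ?_
      have hc : Continuous fun t : ℝ => 1 / (n : ℝ) * t := by fun_prop
      exact hc.comp_lowerSemicontinuous (win_lsc hu Z E g₀ f n H) fun a b hab =>
        mul_le_mul_of_nonneg_left hab (by positivity)
    refine meas_of_most hS (hl.isOpen_preimage _).measurableSet N (by omega) hε.le fun y => ?_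
    obtain ⟨V, hV1, hV2⟩ := h4 N (by omega) N le_rfl g₀ hg y
    refine ⟨V, hV1, fun l hl hlV hy => ?_⟩
    have h5 : ε * (H * Real.log N) <
        ∑ n ∈ Icc 1 N, 1 / (n : ℝ) * windowSup Z E g₀ f u ((fun x => g₀ • x)^[l] y) n H := hy
    rw [smul_iterate] at h5
    exact absurd (hV2 l hl hlV) (not_le.2 h5)

omit [IsTopologicalGroup G] in
theorem thin_of_null {φ : ℝ → G} (hφ : Continuous φ) (hadd : ∀ s t, φ (s + t) = φ s * φ t) {E₀ : Set ℝ}
    (hE : IsCompact E₀) (h0 : MeasureTheory.volume E₀ = 0) : Thin (φ '' E₀) := by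
  classical
  have hφ0 : φ 0 = 1 := by
    have h1 := hadd 0 0
    rw [add_zero] at h1
    exact left_eq_mul.1 h1
  have hneg : ∀ t, φ (-t) = (φ t)⁻¹ := by
    intro t
    rw [eq_inv_iff_mul_eq_one, ← hadd, neg_add_cancel, hφ0]
  have hpow : ∀ (m : ℕ) t, φ t ^ m = φ (m * t) := by
    intro m t
    induction m with
    | zero => simp [hφ0]
    | succ m ih =>
      rw [pow_succ, ih, ← hadd]
      congr 1
      push_cast
      ring
  intro U hU δ hδ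
  have h1 : φ ⁻¹' U ∈ 𝓝 (0 : ℝ) := hφ.continuousAt.preimage_mem_nhds (by rwa [hφ0])
  obtain ⟨r, hr, h2⟩ := Metric.mem_nhds_iff.1 h1
  obtain ⟨H, hH, s, hs1, hs2, hs3⟩ := null_cells hE h0 hr hδ
  refine ⟨H, hH, s.image φ, ?_, ?_, ?_⟩
  · intro a ha
    obtain ⟨t, ht, rfl⟩ := mem_image.1 ha
    exact ⟨t, hs1 t ht, rfl⟩
  · exact le_trans (by exact_mod_cast card_image_le) hs2
  · rintro _ ⟨t, ht, rfl⟩
    obtain ⟨t', ht', h3⟩ := hs3 t ht
    refine ⟨φ t', mem_image.2 ⟨t', ht', rfl⟩, fun m hm => ?_⟩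
    rw [← hneg, ← hadd, hpow]
    refine h2 ?_
    rw [Metric.mem_ball, Real.dist_eq, sub_zero, ← sub_eq_add_neg]
    exact h3 m hm

end

theorem kf_of {E F : Set ℕ} {f : ℕ → ℤ} (h : ∀ h : ℕ, 1 ≤ h → ∀ ε : ℝ, 0 < ε → ∃ N₀ : ℕ, ∀ N : ℕ, N₀ ≤ N →
    N ∉ E → ∀ α : ℝ, ‖Pool.Agent.Y842.PH.Cr f h N α‖ ≤ ε * N) (hEF : E ⊆ F) : Kf f F := by
  intro k hk ε hε
  obtain ⟨N₀, h1⟩ := h k hk ε hε
  exact ⟨N₀, fun N hN hNE => h1 N hN (fun h3 => hNE (hEF h3))⟩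

/-- **Theorem.** There is one set `A` of logarithmic density zero such that (A) and (B) hold. -/
theorem result : ∃ A : Set ℕ, LogDensityZero A ∧ PartA A ∧ PartB A := by
  obtain ⟨E₁, hE₁, h1⟩ := Pool.Agent.Y842.PH.one_E (Pool.Agent.Y304.U.avc Pool.Agent.Y304.U.pw)
    Pool.Agent.TH823.MRS.mob Pool.Agent.TH823.MRS.mob_bdd Pool.Agent.TH823.MRS.mob_flip
    Pool.Agent.TH823.MRS.expo_mob
  obtain ⟨E₂, hE₂, h2⟩ := Pool.Agent.Y842.PH.one_E (Pool.Agent.Y304.U.avc Pool.Agent.Y304.U.pw)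
    Pool.Agent.H376R2.MR.lam Pool.Agent.Y842.EL.abs_lam Pool.Agent.TH823.MRS.lam_flip Pool.Agent.TH823.MRS.expo_lam
  have hE : LogDensityZero (E₁ ∪ E₂) := Pool.Agent.Y842.EL.LZ_union hE₁ hE₂
  have hmu : ∀ n, |mu n| ≤ 1 := fun n => ArithmeticFunction.abs_moebius_le_one
  have hlam : ∀ n, |lam n| ≤ 1 := fun n => by
    unfold lam
    rw [abs_pow, abs_neg, abs_one, one_pow]
  have s1 : Kf mu (E₁ ∪ E₂) := kf_of h1 Set.subset_union_left
  have s2 : Kf lam (E₁ ∪ E₂) := kf_of h2 Set.subset_union_right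
  refine ⟨E₁ ∪ E₂, hE, ?_, ?_⟩
  · intro G _ _ _ _ Γ Z h2s E C hEZ hEc hT hCc f
    have m1 := shifts hE hmu s1 h2s hEZ hEc hT hCc f
    have m2 := shifts hE hlam s2 h2s hEZ hEc hT hCc f
    exact ⟨m1, m2, points hmu h2s f m1, points hlam h2s f m2⟩
  · intro G _ _ _ _ Γ Z h2s φ hφ hadd hφZ E₀ C hE₀ h0 hCc f
    have hT := thin_of_null hφ hadd hE₀ h0
    have hEZ : φ '' E₀ ⊆ Z := by
      rintro _ ⟨t, _, rfl⟩
      exact hφZ t
    have m1 := shifts hE hmu s1 h2s hEZ (hE₀.image hφ) hT hCc f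
    have m2 := shifts hE hlam s2 h2s hEZ (hE₀.image hφ) hT hCc f
    exact ⟨m1, m2, points hmu h2s f m1, points hlam h2s f m2⟩

end Pool.Agent.Results.MP_663568_nt.MostStartingPoints
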