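import Pool.Agent.R378.NF4
import Pool.Agent.R378.NS

/-! Logarithmic short-interval Möbius disjointness for rotations of tori, with the supremum over the rotations in
a set with few balls at small scales inside the sum: closed null sets of frequencies, and the bound `√(6|E|)/π`
for closed sets of frequencies of positive measure. -/

set_option autoImplicit false

namespace Pool.Agent.Results.MP_663568_nt.NullFrequencySets

open Finset MeasureTheory
open Pool.Agent.Results.MP_663568_nt.SmallFrequencySets (windowSup)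

/-- `E` is covered by at most `κ n` closed balls of radius `1 / n`. -/
def Thin {X : Type} [PseudoMetricSpace X] (E : Set X) (κ : ℝ) (n : ℕ) : Prop :=
  ∃ S : Finset X, (S.card : ℝ) ≤ κ * n ∧ ∀ g ∈ E, ∃ y ∈ S, dist g y ≤ 1 / n

/-- The supremum over the frequencies `α ∈ E` of `|∑_{h ≤ H} μ(m + h) e((m + h) α)|`. -/
noncomputable def charSup (E : Set UnitAddCircle) (m H : ℕ) : ℝ :=
  ⨆ α : E, ‖∑ h ∈ Icc 1 H, ((ArithmeticFunction.moebius (m + h) : ℤ) : ℂ) *
    fourier ((m + h : ℕ) : ℤ) (α : UnitAddCircle)‖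

open Pool.Agent.R378.NF in
theorem thin_torus (d : ℕ) (f : C(Fin d → UnitAddCircle, ℂ)) (ε : ℝ) (hε : 0 < ε) :
    ∃ κ : ℝ, 0 < κ ∧ ∃ n₀ : ℕ, ∀ n : ℕ, n₀ ≤ n → ∃ H₀ : ℕ, ∀ N H : ℕ, H₀ ≤ H → H ≤ N →
      ∀ E : Set (Fin d → UnitAddCircle), Thin E κ n →
        ∑ m ∈ Icc 1 N, (1 / (m : ℝ)) * windowSup E f m H ≤ ε * H * Real.log N := by
  obtain ⟨T, η, hη, hcore⟩ := core f ε hε
  set B : ℕ := ∑ k ∈ T, ∑ i, (k i).natAbs + 1 with hB
  have hBk : ∀ k ∈ T, ∑ i, (k i).natAbs < B := by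
    intro k hk
    have h1 : ∑ i, (k i).natAbs ≤ ∑ k ∈ T, ∑ i, (k i).natAbs :=
      Finset.single_le_sum (f := fun k : Fin d → ℤ => ∑ i, (k i).natAbs) (fun _ _ => Nat.zero_le _) hk
    omega
  have hB1 : 1 ≤ B := by omega
  have hBr : (0:ℝ) < B := by exact_mod_cast hB1
  refine ⟨η / (2 * B), by positivity, 7 * B, fun n hn => ?_⟩
  have hq : 7 ≤ n / B := (Nat.le_div_iff_mul_le hB1).2 hn
  obtain ⟨H₀, h⟩ := hcore (fun _ => n / B) (fun _ => hq)
  refine ⟨H₀, fun N H hH hHN E hE => h N H hH hHN E fun k hk => ?_⟩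
  obtain ⟨S, hS, hc⟩ := hE
  exact thin_lin k (hBk k hk) (by omega) hη.le (le_of_eq (by field_simp)) S hS hc

open Pool.Agent.R378.NF in
theorem null_torus (d : ℕ) (f : C(Fin d → UnitAddCircle, ℂ)) (E : Set (Fin d → UnitAddCircle))
    (hE : IsClosed E)
    (h0 : ∀ k : Fin d → ℤ, k ≠ 0 → volume ((fun g : Fin d → UnitAddCircle => ∑ i, k i • g i) '' E) = 0)
    (ε : ℝ) (hε : 0 < ε) :
    ∃ H₀ : ℕ, ∀ N H : ℕ, H₀ ≤ H → H ≤ N →
        ∑ m ∈ Icc 1 N, (1 / (m : ℝ)) * windowSup E f m H ≤ ε * H * Real.log N := by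
  obtain ⟨T, η, hη, hcore⟩ := core f ε hε
  have hth : ∀ k : Fin d → ℤ, ∃ n₀ : ℕ, ∀ n : ℕ, n₀ ≤ n →
      Thin1 ((fun g : Fin d → UnitAddCircle => ∑ i, k i • g i) '' E) η n := by
    intro k
    apply thin_of_measure
    · apply IsCompact.isClosed
      apply hE.isCompact.image
      fun_prop
    · have h1 : volume ((fun g : Fin d → UnitAddCircle => ∑ i, k i • g i) '' E) = 0 := by
        by_cases hk : k = 0
        · have h2 : (fun g : Fin d → UnitAddCircle => ∑ i, k i • g i) '' E ⊆ {0} := by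
            rintro _ ⟨g, _, rfl⟩
            simp [hk]
          refine measure_mono_null h2 ?_
          have h3 := AddCircle.volume_closedBall (T := 1) (x := (0 : UnitAddCircle)) 0
          rw [Metric.closedBall_zero] at h3
          rw [h3]
          simp
        · exact h0 k hk
      rw [h1]
      exact ENNReal.ofReal_pos.2 hη
  choose n₀ hn₀ using hth
  obtain ⟨H₀, h⟩ := hcore (fun k => max (n₀ k) 7) (fun k => le_max_right _ _)
  exact ⟨H₀, fun N H hH hHN => h N H hH hHN E fun k _ => hn₀ k _ (le_max_left _ _)⟩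

open Pool.Agent.R378.NF in
/-- from choices of frequencies to the supremum -/
theorem near_sup (E : Set UnitAddCircle) (N H : ℕ) (B : ℝ) (hB : 0 ≤ B)
    (h : ∀ α : ℕ → UnitAddCircle, (∀ m, α m ∈ E) →
      ∑ m ∈ Icc 1 N, (1 / (m : ℝ)) * ‖∑ j ∈ Ioc m (m + H), mm j * fourier (j : ℤ) (α m)‖ ≤ B) :
    ∑ m ∈ Icc 1 N, (1 / (m : ℝ)) * charSup E m H ≤ B := by
  rcases E.eq_empty_or_nonempty with hem | hne
  · subst hem
    have h0 : ∀ m, charSup (∅ : Set UnitAddCircle) m H = 0 := fun m => Real.iSup_of_isEmpty _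
    simp only [h0, mul_zero, sum_const_zero]
    exact hB
  apply le_of_forall_pos_le_add
  intro δ hδ
  have hne' : Nonempty E := hne.to_subtype
  have hhar : 0 ≤ ∑ m ∈ Icc 1 N, 1 / (m : ℝ) := sum_nonneg fun _ _ => by positivity
  set δ' : ℝ := δ / (∑ m ∈ Icc 1 N, 1 / (m : ℝ) + 1) with hδ'
  have hδ'0 : 0 < δ' := by positivity
  have hnear : ∀ m : ℕ, ∃ α : UnitAddCircle, α ∈ E ∧
      charSup E m H ≤ ‖∑ j ∈ Ioc m (m + H), mm j * fourier (j : ℤ) α‖ + δ' := by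
    intro m
    obtain ⟨α, hα⟩ := exists_lt_of_lt_ciSup (show charSup E m H - δ' < charSup E m H by linarith)
    refine ⟨α, α.2, ?_⟩
    have e : ∑ j ∈ Ioc m (m + H), mm j * fourier (j : ℤ) (α : UnitAddCircle) =
        ∑ h ∈ Icc 1 H, ((ArithmeticFunction.moebius (m + h) : ℤ) : ℂ) *
          fourier ((m + h : ℕ) : ℤ) (α : UnitAddCircle) := by
      have h1 : Ioc m (m + H) = (Icc 1 H).image (fun h => m + h) := by
        ext j
        simp only [mem_Ioc, mem_image, mem_Icc]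
        constructor
        · intro h; exact ⟨j - m, by omega, by omega⟩
        · rintro ⟨j, hj, rfl⟩; omega
      rw [h1, sum_image fun a _ b _ hab => by omega]
      rfl
    rw [e]
    linarith
  choose α hα1 hα2 using hnear
  have h1 := h α hα1
  calc ∑ m ∈ Icc 1 N, (1 / (m : ℝ)) * charSup E m H
      ≤ ∑ m ∈ Icc 1 N, (1 / (m : ℝ)) * (‖∑ j ∈ Ioc m (m + H), mm j * fourier (j : ℤ) (α m)‖ + δ') :=
        sum_le_sum fun m _ => mul_le_mul_of_nonneg_left (hα2 m) (by positivity)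
    _ = ∑ m ∈ Icc 1 N, (1 / (m : ℝ)) * ‖∑ j ∈ Ioc m (m + H), mm j * fourier (j : ℤ) (α m)‖ +
        (∑ m ∈ Icc 1 N, 1 / (m : ℝ)) * δ' := by
        simp_rw [mul_add, sum_add_distrib]
        rw [sum_mul]
    _ ≤ B + δ := by
        apply add_le_add h1
        rw [hδ', mul_div_assoc', div_le_iff₀ (by positivity)]
        nlinarith

lemma sqrt_rho (k : ℝ) : Real.sqrt (Pool.Agent.R378.NS.rho * k) = Real.sqrt (6 * k) / Real.pi := by
  have h1 : Pool.Agent.R378.NS.rho * k = 6 * k / Real.pi ^ 2 := by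
    unfold Pool.Agent.R378.NS.rho
    ring
  rw [h1, Real.sqrt_div' _ (by positivity), Real.sqrt_sq Real.pi_pos.le]

theorem closed_circle (E : Set UnitAddCircle) (hE : IsClosed E) (ε : ℝ) (hε : 0 < ε) :
    ∃ H₀ : ℕ, ∀ N H : ℕ, H₀ ≤ H → H ≤ N →
      ∑ m ∈ Icc 1 N, (1 / (m : ℝ)) * charSup E m H ≤
        (Real.sqrt (6 * (volume E).toReal) / Real.pi + ε) * H * Real.log N := by
  obtain ⟨H₀, h⟩ := Pool.Agent.R378.NS.char_sharp E hE ε hε
  refine ⟨max H₀ 3, fun N H hH hHN => ?_⟩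
  have b1 : H₀ ≤ H := (le_max_left _ _).trans hH
  have b3 : 3 ≤ H := (le_max_right _ _).trans hH
  have hNr : (3 : ℝ) ≤ N := by exact_mod_cast b3.trans hHN
  have hlog : 0 ≤ Real.log N := Real.log_nonneg (by linarith)
  refine near_sup E N H _ (by positivity) fun α hα => ?_
  rw [← sqrt_rho]
  exact h N H b1 hHN α hα

/-- the union of the closed balls of radius `3/(2n)` around the points `j/n`, `j ∈ J` -/
def gridSet (n : ℕ) (J : Finset ℕ) : Set UnitAddCircle :=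
  ⋃ j ∈ J, Metric.closedBall (((j : ℝ) / n : ℝ) : UnitAddCircle) (3 / (2 * n))

lemma gridSet_closed (n : ℕ) (J : Finset ℕ) : IsClosed (gridSet n J) :=
  J.finite_toSet.isClosed_biUnion fun _ _ => Metric.isClosed_closedBall

lemma gridSet_volume (n : ℕ) (J : Finset ℕ) : (volume (gridSet n J)).toReal ≤ J.card * (3 / n) := by
  have h1 : volume (gridSet n J) ≤ ∑ j ∈ J, ENNReal.ofReal (3 / n) := by
    refine (measure_biUnion_finset_le J _).trans (Finset.sum_le_sum fun j _ => ?_)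
    rw [AddCircle.volume_closedBall]
    apply ENNReal.ofReal_le_ofReal
    refine (min_le_right _ _).trans (le_of_eq ?_)
    ring
  rw [sum_const, nsmul_eq_mul] at h1
  refine ENNReal.toReal_le_of_le_ofReal (by positivity) (h1.trans (le_of_eq ?_))
  rw [ENNReal.ofReal_mul (by positivity)]
  simp

/-- a grid point near a given point -/
lemma grid_near (n : ℕ) (hn : 1 ≤ n) (y : UnitAddCircle) : ∃ j < n,
    dist y (((j : ℝ) / n : ℝ) : UnitAddCircle) ≤ 1 / (2 * n) := by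
  have hn0 : (0 : ℝ) < n := by exact_mod_cast hn
  obtain ⟨t, ht, rfl⟩ : ∃ t : ℝ, t ∈ Set.Ico (0:ℝ) 1 ∧ ((t : ℝ) : UnitAddCircle) = y := by
    have := AddCircle.coe_image_Ico_eq (1 : ℝ) 0
    have h2 : y ∈ ((↑) : ℝ → UnitAddCircle) '' Set.Ico 0 (0 + 1) := by
      rw [this]
      trivial
    obtain ⟨t, ht, hty⟩ := h2
    rw [zero_add] at ht
    exact ⟨t, ht, hty⟩
  set i : ℕ := ⌊t * n + 1 / 2⌋₊ with hi
  have h0 : 0 ≤ t * n + 1 / 2 := by
    have := mul_nonneg ht.1 hn0.le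
    linarith
  have h1 : (i : ℝ) ≤ t * n + 1 / 2 := Nat.floor_le h0
  have h2 : t * n + 1 / 2 < i + 1 := Nat.lt_floor_add_one _
  have hin : i ≤ n := by
    have h3 : t * n < n := by nlinarith [ht.2]
    have h4 : (i : ℝ) < n + 1 := by linarith
    have : i < n + 1 := by exact_mod_cast h4
    omega
  have h5 : dist ((t : ℝ) : UnitAddCircle) (((i : ℝ) / n : ℝ) : UnitAddCircle) ≤ 1 / (2 * n) := by
    rw [dist_eq_norm, ← AddCircle.coe_sub]
    refine (QuotientAddGroup.norm_mk_le_norm (S := AddSubgroup.zmultiples (1:ℝ)) (m := t - i / n)).trans ?_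
    rw [Real.norm_eq_abs, abs_le]
    have e : t - i / n = (t * n - i) / n := by field_simp
    rw [e]
    constructor
    · rw [neg_le_iff_add_nonneg, div_add_div _ _ hn0.ne' (by positivity)]
      apply div_nonneg _ (by positivity)
      nlinarith
    · rw [div_le_div_iff₀ hn0 (by positivity)]
      nlinarith
  rcases hin.lt_or_eq with h6 | h6
  · exact ⟨i, h6, h5⟩
  · refine ⟨0, by omega, ?_⟩
    rw [h6, div_self hn0.ne'] at h5
    have e1 : ((1 : ℝ) : UnitAddCircle) = 0 := AddCircle.coe_period 1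
    have e2 : (((0 : ℕ) : ℝ) / n : ℝ) = 0 := by simp
    rw [e2]
    rw [e1] at h5
    exact h5

theorem thin_circle (κ : ℝ) (n : ℕ) (hn : 1 ≤ n) (ε : ℝ) (hε : 0 < ε) :
    ∃ H₀ : ℕ, ∀ N H : ℕ, H₀ ≤ H → H ≤ N → ∀ E : Set UnitAddCircle, Thin E κ n →
      ∑ m ∈ Icc 1 N, (1 / (m : ℝ)) * charSup E m H ≤
        (Real.sqrt (18 * κ) / Real.pi + ε) * H * Real.log N := by
  have hn0 : (0 : ℝ) < n := by exact_mod_cast hn
  have hall : ∀ J : Finset ℕ, ∃ H₀ : ℕ, ∀ N H : ℕ, H₀ ≤ H → H ≤ N →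
      ∀ α : ℕ → UnitAddCircle, (∀ m, α m ∈ gridSet n J) →
      ∑ m ∈ Icc 1 N, (1 / (m : ℝ)) * ‖∑ j ∈ Ioc m (m + H), Pool.Agent.R378.NF.mm j * fourier (j : ℤ) (α m)‖ ≤
        (Real.sqrt (Pool.Agent.R378.NS.rho * (volume (gridSet n J)).toReal) + ε) * H * Real.log N :=
    fun J => Pool.Agent.R378.NS.char_sharp _ (gridSet_closed n J) ε hε
  choose H₁ hH₁ using hall
  refine ⟨max ((range n).powerset.sup H₁) 3, fun N H hH hHN E hE => ?_⟩
  have b3 : 3 ≤ H := (le_max_right _ _).trans hH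
  have hNr : (3 : ℝ) ≤ N := by exact_mod_cast b3.trans hHN
  have hlog : 0 ≤ Real.log N := Real.log_nonneg (by linarith)
  obtain ⟨S, hS, hc⟩ := hE
  choose g hg1 hg2 using grid_near n hn
  set J : Finset ℕ := S.image g with hJ
  have hJn : J ∈ (range n).powerset := by
    rw [mem_powerset, hJ]
    intro j hj
    obtain ⟨y, _, rfl⟩ := mem_image.1 hj
    exact mem_range.2 (hg1 y)
  have b1 : H₁ J ≤ H := ((Finset.le_sup hJn).trans (le_max_left _ _)).trans hH
  have hEJ : E ⊆ gridSet n J := by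
    intro x hx
    obtain ⟨y, hy, hxy⟩ := hc x hx
    refine Set.mem_iUnion₂.2 ⟨g y, mem_image_of_mem g hy, ?_⟩
    rw [Metric.mem_closedBall]
    refine (dist_triangle _ y _).trans ((add_le_add hxy (hg2 y)).trans (le_of_eq ?_))
    field_simp
    norm_num
  refine near_sup E N H _ (by positivity) fun α hα => (hH₁ J N H b1 hHN α fun m => hEJ (hα m)).trans ?_
  rw [sqrt_rho]
  have h1 : (volume (gridSet n J)).toReal ≤ 3 * κ := by
    refine (gridSet_volume n J).trans ?_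
    have h2 : (J.card : ℝ) ≤ κ * n := le_trans (by exact_mod_cast card_image_le) hS
    calc (J.card : ℝ) * (3 / n) ≤ κ * n * (3 / n) := by gcongr
      _ = 3 * κ := by field_simp
  have h3 : Real.sqrt (6 * (volume (gridSet n J)).toReal) ≤ Real.sqrt (18 * κ) :=
    Real.sqrt_le_sqrt (by linarith)
  have hpi := Real.pi_pos
  gcongr

/-- **Logarithmic short-interval Möbius disjointness for rotations of tori with thin sets of rotations.** -/
theorem result :
    (∀ (d : ℕ) (f : C(Fin d → UnitAddCircle, ℂ)) (ε : ℝ), 0 < ε →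
      ∃ κ : ℝ, 0 < κ ∧ ∃ n₀ : ℕ, ∀ n : ℕ, n₀ ≤ n → ∃ H₀ : ℕ, ∀ N H : ℕ, H₀ ≤ H → H ≤ N →
        ∀ E : Set (Fin d → UnitAddCircle), Thin E κ n →
          ∑ m ∈ Icc 1 N, (1 / (m : ℝ)) * windowSup E f m H ≤ ε * H * Real.log N) ∧
    (∀ (d : ℕ) (f : C(Fin d → UnitAddCircle, ℂ)) (E : Set (Fin d → UnitAddCircle)), IsClosed E →
      (∀ k : Fin d → ℤ, k ≠ 0 → volume ((fun g : Fin d → UnitAddCircle => ∑ i, k i • g i) '' E) = 0) →
      ∀ ε : ℝ, 0 < ε → ∃ H₀ : ℕ, ∀ N H : ℕ, H₀ ≤ H → H ≤ N →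
        ∑ m ∈ Icc 1 N, (1 / (m : ℝ)) * windowSup E f m H ≤ ε * H * Real.log N) ∧
    (∀ E : Set UnitAddCircle, IsClosed E → ∀ ε : ℝ, 0 < ε → ∃ H₀ : ℕ, ∀ N H : ℕ, H₀ ≤ H → H ≤ N →
      ∑ m ∈ Icc 1 N, (1 / (m : ℝ)) * charSup E m H ≤
        (Real.sqrt (6 * (volume E).toReal) / Real.pi + ε) * H * Real.log N) ∧
    (∀ (κ : ℝ) (n : ℕ), 1 ≤ n → ∀ ε : ℝ, 0 < ε → ∃ H₀ : ℕ, ∀ N H : ℕ, H₀ ≤ H → H ≤ N →
      ∀ E : Set UnitAddCircle, Thin E κ n →
        ∑ m ∈ Icc 1 N, (1 / (m : ℝ)) * charSup E m H ≤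
          (Real.sqrt (18 * κ) / Real.pi + ε) * H * Real.log N) :=
  ⟨thin_torus, fun d f E hE h0 ε hε => null_torus d f E hE h0 ε hε, closed_circle, thin_circle⟩

end Pool.Agent.Results.MP_663568_nt.NullFrequencySets
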