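import Pool.Agent.R509.PP.Mob

/-! The Möbius function in short intervals along all polynomial orbits on tori, the orbit depending on the
interval: an upper bound for the sums `S_f(N, H)` of the problem by the mean deviations of `f`. -/

set_option autoImplicit false

open Finset MeasureTheory Polynomial

namespace Pool.Agent.Results.MP_663568_nt.PolynomialOrbits

/-- The supremum of `|∑_{h ≤ H} F(P(n + h)) μ(n + h)|` over all tuples `P = (P_1, ..., P_m)` of real polynomials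
of degree at most `d`, where `F` is a function on the torus `ℝ^m/ℤ^m`. -/
noncomputable def windowSup {m : ℕ} (d : ℕ) (F : C(Fin m → UnitAddCircle, ℂ)) (n H : ℕ) : ℝ :=
  ⨆ P : {P : Fin m → ℝ[X] // ∀ i, (P i).natDegree ≤ d}, ‖∑ h ∈ Icc 1 H,
    F (fun i => (((P.1 i).eval ((n + h : ℕ) : ℝ) : ℝ) : UnitAddCircle)) * ((ArithmeticFunction.moebius (n + h) : ℤ) : ℂ)‖

/-- The supremum of `|∑_{h ≤ H} e(P(n + h)) μ(n + h)|` over all real polynomials `P` of degree at most `d`. -/
noncomputable def expSup (d n H : ℕ) : ℝ :=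
  ⨆ P : {P : ℝ[X] // P.natDegree ≤ d}, ‖∑ h ∈ Icc 1 H,
    Complex.exp (2 * Real.pi * Complex.I * ((P.1.eval ((n + h : ℕ) : ℝ) : ℝ) : ℂ)) *
      ((ArithmeticFunction.moebius (n + h) : ℤ) : ℂ)‖

/-- The deviation of `F` is at most `A`: for each integer matrix `B`, each point `x` and each `c` with `|c| = 1`
there is a real number `t` for which the mean over the torus of `|Re(c F(x + B y)) - t|` is at most `A`. -/
def Deviation {m : ℕ} (F : C(Fin m → UnitAddCircle, ℂ)) (A : ℝ) : Prop :=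
  ∀ (B : Fin m → Fin m → ℤ) (x : Fin m → UnitAddCircle) (c : ℂ), ‖c‖ = 1 → ∃ t : ℝ,
    ∫ y : Fin m → UnitAddCircle, |(c * F (fun i => x i + ∑ j, B i j • y j)).re - t| ≤ A

/-- **Short intervals and polynomial orbits on tori.** (1) Let `F` be continuous on the torus `ℝ^m/ℤ^m` with
deviation at most `A`. For every `d` and `ε > 0`, for all `N ≥ H ≥ H₀`,
`∑_{n ≤ N} (1/n) sup_P |∑_{h ≤ H} F(P(n + h)) μ(n + h)| ≤ (6/π² A + ε) H log N`, the supremum over all
tuples of real polynomials of degree at most `d`, and the same without the weights `1/n`, with `N` in place of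
`log N`. (2) In particular
`∑_{n ≤ N} (1/n) sup_P |∑_{h ≤ H} e(P(n + h)) μ(n + h)| ≤ (12/π³ + ε) H log N`, the supremum over all real
polynomials of degree at most `d`, and the same without the weights. -/
theorem result :
    (∀ (m d : ℕ) (F : C(Fin m → UnitAddCircle, ℂ)) (A : ℝ), Deviation F A → ∀ ε : ℝ, 0 < ε →
      ∃ H₀ : ℕ, ∀ N H : ℕ, H₀ ≤ H → H ≤ N →
        ∑ n ∈ Icc 1 N, (1 / (n : ℝ)) * windowSup d F n H ≤ (6 / Real.pi ^ 2 * A + ε) * H * Real.log N ∧
        ∑ n ∈ Icc 1 N, windowSup d F n H ≤ (6 / Real.pi ^ 2 * A + ε) * H * N) ∧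
    (∀ (d : ℕ) (ε : ℝ), 0 < ε → ∃ H₀ : ℕ, ∀ N H : ℕ, H₀ ≤ H → H ≤ N →
        ∑ n ∈ Icc 1 N, (1 / (n : ℝ)) * expSup d n H ≤ (12 / Real.pi ^ 3 + ε) * H * Real.log N ∧
        ∑ n ∈ Icc 1 N, expSup d n H ≤ (12 / Real.pi ^ 3 + ε) * H * N) :=
  ⟨fun m d F A hA ε hε => Pool.Agent.R509.PP.mob_avg m d F A hA ε hε,
    fun d ε hε => Pool.Agent.R509.PP.exp_avg d ε hε⟩

end Pool.Agent.Results.MP_663568_nt.PolynomialOrbits
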