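import Pool.Agent.R296.NR.A
import Pool.Agent.R296.NR.B
import Pool.Agent.R296.NR.C
import Pool.Agent.R296.NR.E

/-!
# Logarithmic short-interval Möbius disjointness for two-step nilrotations: thin sets of central directions (helper296)

`G` is a two-step nilpotent group, `Γ` a cocompact closed subgroup, `Z` a central subgroup which contains the
commutators and meets `Γ` cocompactly. For every compact subset `E` of `Z` which is thin (for example compact of measure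
zero if `Z` is a line), and uniformly over all `g₀` in `G`, the supremum over all rotations by elements of `g₀ E`, and
over all starting points in a `Z`-orbit, of the correlation of `f(g^(n+h) x)` with the Möbius function in short intervals
is small on logarithmic average. The same holds for all polynomial orbits `c^((n+h) choose 2) g^(n+h) x`, `c` in `Z`.
-/

set_option autoImplicit false

open Finset Filter Topology

namespace Pool.Agent.Results.MP_663568_nt.TwoStepAllRotations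

open Classical in
/-- `A` has logarithmic density zero -/
def LogDensityZero (A : Set ℕ) : Prop := Tendsto
  (fun X : ℕ => (∑ n ∈ Icc 1 X, if n ∈ A then (1 : ℝ) / n else 0) / Real.log X) atTop (𝓝 0)

/-- the Möbius function -/
def mu (n : ℕ) : ℤ := ArithmeticFunction.moebius n

/-- the Liouville function -/
def lam (n : ℕ) : ℤ := (-1) ^ ArithmeticFunction.cardFactors n

/-- `E` is thin: for each neighbourhood `U` of the identity and each `δ > 0` there are a length `H` and at most `δ H`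
elements of `E` such that each `e` in `E` has one of them, `a`, with `(e a⁻¹)^m` in `U` for all `m < H`. If the group is
the real line this says that `E` is covered by `o(H)` intervals of length `1/H`, for arbitrarily large `H`. -/
def Thin {G : Type} [Group G] [TopologicalSpace G] (E : Set G) : Prop :=
  ∀ U ∈ 𝓝 (1 : G), ∀ δ : ℝ, 0 < δ → ∃ H : ℕ, 1 ≤ H ∧ ∃ s : Finset G, (∀ a ∈ s, a ∈ E) ∧ (s.card : ℝ) ≤ δ * H ∧
    ∀ e ∈ E, ∃ a ∈ s, ∀ m < H, (e * a⁻¹) ^ m ∈ U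

/-- The supremum of `|∑_{h ≤ H} f(c^((n+h) choose 2) g^(h+n) x) u(n+h)|` over all `g` in `g₀ E` and all points `x` of
the `Z`-orbit of `x₀`; for `c = 1` this is the supremum of `|∑_{h ≤ H} f(g^(h+n) x) u(n+h)|`. (It is at most `H ‖f‖` for
`|u| ≤ 1`.) -/
noncomputable def windowSup {G : Type} [Group G] [TopologicalSpace G] {Γ : Subgroup G}
    (Z : Subgroup G) (E : Set G) (g₀ : G) (c : Z) (f : C(G ⧸ Γ, ℂ)) (u : ℕ → ℤ) (x₀ : G ⧸ Γ) (n H : ℕ) : ℝ :=
  ⨆ p : E × Z, ‖∑ h ∈ Icc 1 H,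
    f ((c : G) ^ (h + n).choose 2 • (g₀ * (p.1 : G)) ^ (h + n) • (p.2 : G) • x₀) * ((u (n + h) : ℤ) : ℂ)‖

/-- The suprema over `g` in `g₀ E` and `x` in a `Z`-orbit are `o(H log N)` on logarithmic average, uniformly over all
`N ≥ H ^ K` (`K` depends on `ε`), all `g₀` in `G`, all `c` in `Z` and all `Z`-orbits, and `o(H N)` on average for `N`
outside of `A`. -/
def ShortDisjoint (A : Set ℕ) {G : Type} [Group G] [TopologicalSpace G] {Γ : Subgroup G}
    (Z : Subgroup G) (E : Set G) (f : C(G ⧸ Γ, ℂ)) (u : ℕ → ℤ) : Prop :=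
  ∀ ε : ℝ, 0 < ε →
    (∃ H₀ K : ℕ, ∀ H ≥ H₀, ∀ N : ℕ, H ^ K ≤ N → ∀ (g₀ : G) (c : Z) (x₀ : G ⧸ Γ),
      ∑ n ∈ Icc 1 N, 1 / (n : ℝ) * windowSup Z E g₀ c f u x₀ n H ≤ ε * (H * Real.log N)) ∧
    ∃ H₀ : ℕ, ∀ H ≥ H₀, ∃ N₀ : ℕ, ∀ N ≥ N₀, N ∉ A → ∀ (g₀ : G) (c : Z) (x₀ : G ⧸ Γ),
      ∑ n ∈ Icc 1 N, windowSup Z E g₀ c f u x₀ n H ≤ ε * (H * N)

/-- `Γ` is a closed cocompact subgroup of `G`, and `Z` a central subgroup containing all commutators and cocompact
modulo `Z ∩ Γ`. For a simply connected two-step nilpotent Lie group `G` with a lattice `Γ` this holds for the centre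
and for the commutator subgroup `Z` (Malcev). -/
def TwoStep {G : Type} [Group G] [TopologicalSpace G] (Γ Z : Subgroup G) : Prop :=
  IsClosed (Γ : Set G) ∧ CompactSpace (G ⧸ Γ) ∧ (∀ z ∈ Z, ∀ g : G, z * g = g * z) ∧
    (∀ a b : G, a * b * a⁻¹ * b⁻¹ ∈ Z) ∧
    ∃ L : Set G, IsCompact L ∧ L ⊆ Z ∧ ∀ z ∈ Z, ∃ l ∈ L, ∃ γ ∈ Γ, z = l * γ

/-- (A) compact thin sets `E` of central elements -/
def PartA (A : Set ℕ) : Prop :=
  ∀ (G : Type) [Group G] [TopologicalSpace G] [IsTopologicalGroup G] [LocallyCompactSpace G] [T2Space G]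
    (Γ Z : Subgroup G), TwoStep Γ Z → ∀ E : Set G, E ⊆ Z → IsCompact E → Thin E → ∀ f : C(G ⧸ Γ, ℂ),
    ShortDisjoint A Z E f mu ∧ ShortDisjoint A Z E f lam

/-- (B) `E` is the image of a compact set of reals of Lebesgue measure zero under a continuous homomorphism `φ` from the
reals to `Z` (for example the parametrisation of the centre of a Heisenberg group) -/
def PartB (A : Set ℕ) : Prop :=
  ∀ (G : Type) [Group G] [TopologicalSpace G] [IsTopologicalGroup G] [LocallyCompactSpace G] [T2Space G]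
    (Γ Z : Subgroup G), TwoStep Γ Z →
    ∀ φ : ℝ → G, Continuous φ → (∀ s t, φ (s + t) = φ s * φ t) → (∀ t, φ t ∈ Z) →
    ∀ E₀ : Set ℝ, IsCompact E₀ → MeasureTheory.volume E₀ = 0 → ∀ f : C(G ⧸ Γ, ℂ),
    ShortDisjoint A Z (φ '' E₀) f mu ∧ ShortDisjoint A Z (φ '' E₀) f lam

open Pool.Agent.R296.RE Pool.Agent.R296.VC Pool.Agent.R296.NR

/-- near-maximisers -/
lemma choose_near {G : Type} [Group G] [TopologicalSpace G] {Γ : Subgroup G} (Z : Subgroup G) (E : Set G) (g₀ : G)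
    (c : Z) (f : C(G ⧸ Γ, ℂ)) (u : ℕ → ℤ) (x₀ : G ⧸ Γ) (n H : ℕ) (hE : E.Nonempty) {η : ℝ} (hη : 0 < η) :
    ∃ p : E × Z, windowSup Z E g₀ c f u x₀ n H ≤ ‖∑ h ∈ Icc 1 H,
      f ((c : G) ^ (h + n).choose 2 • (g₀ * (p.1 : G)) ^ (h + n) • (p.2 : G) • x₀) * ((u (n + h) : ℤ) : ℂ)‖ + η := by
  obtain ⟨e, he⟩ := hE
  have : Nonempty (E × Z) := ⟨(⟨e, he⟩, 1)⟩
  obtain ⟨p, hp⟩ := exists_lt_of_lt_ciSup (show windowSup Z E g₀ c f u x₀ n H - η < windowSup Z E g₀ c f u x₀ n H by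
    linarith)
  exact ⟨p, by linarith⟩

section

variable {G : Type} [Group G] [TopologicalSpace G] [IsTopologicalGroup G] {Γ Z : Subgroup G}

/-- all polynomial orbits are orbits of `T2` -/
theorem orbit_T2 [(Γ.subgroupOf Z).Normal] (hZ : ∀ z ∈ Z, ∀ g : G, z * g = g * z)
    (hc : ∀ a b : G, a * b * a⁻¹ * b⁻¹ ∈ Z) {C₀ : Set G} (hC₀ : ∀ g : G, ∃ a ∈ C₀, ∃ γ ∈ Γ, g = a * γ)
    {E : Set G} (hE : ∀ e ∈ E, e ∈ Z) {C : Set G} (hC : ∀ a ∈ C₀, ∀ b ∈ C₀, a * b * a⁻¹ ∈ C)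
    (g₀ : G) (c : Z) (x₀ : G ⧸ Γ) : ∃ (b : C) (c' : Z ⧸ (Γ.subgroupOf Z)), ∀ (e : E) (w : Z) (k : ℕ),
      ((T2 hZ E C)^[k] ((w : G) • x₀, (1, (e, (b, c'))))).1 =
        (c : G) ^ k.choose 2 • (g₀ * (e : G)) ^ k • (w : G) • x₀ := by
  induction x₀ using QuotientGroup.induction_on with
  | H a' =>
    obtain ⟨a, ha, γ', hγ', rfl⟩ := hC₀ a'
    obtain ⟨b', hb', γ, hγ, h1⟩ := hC₀ (a⁻¹ * g₀ * a)
    have hx₀ : ((a * γ' : G) : G ⧸ Γ) = (a : G ⧸ Γ) := by
      rw [eq_comm, QuotientGroup.eq, inv_mul_cancel_left]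
      exact hγ'
    have h2 : g₀ * a = a * (b' * γ) := by
      rw [← h1]
      group
    set c₀ : Z := ⟨γ * b' * γ⁻¹ * b'⁻¹, hc γ b'⟩ with hc₀
    have h3 : γ * b' = (c₀ : G) * (b' * γ) := by
      show γ * b' = γ * b' * γ⁻¹ * b'⁻¹ * (b' * γ)
      group
    refine ⟨⟨a * b' * a⁻¹, hC a ha b' hb'⟩, ((c * c₀ : Z) : Z ⧸ (Γ.subgroupOf Z)), fun e w k => ?_⟩
    rw [T2_iter, hx₀]
    show act hZ (DD ((c * c₀ : Z) : Z ⧸ (Γ.subgroupOf Z)) 1 k) (((a * b' * a⁻¹) * (e : G)) ^ k • (w : G) • (a : G ⧸ Γ)) = _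
    rw [DD_cc, act_mk]
    have he : (e : G) ∈ Z := hE _ e.2
    have h4 := orbit_alg hZ c₀ h3 h2 k
    have h5 : ((cc (c * c₀) k : Z) : G) = (c : G) ^ k.choose 2 * (cc c₀ k : G) := by
      have h6 : ∀ (d : Z) (j : ℕ), (cc d j : G) = (d : G) ^ j.choose 2 := by
        intro d j
        induction j with
        | zero => simp [cc]
        | succ j ih =>
          show (d : G) ^ j * (cc d j : G) = _
          rw [ih, ← pow_add]
          congr 1
          rw [Nat.choose_succ_succ' j 1, Nat.choose_one_right]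
      rw [h6, h6]
      have h7 : Commute (c : G) (c₀ : G) := hZ _ c.2 _
      rw [← h7.mul_pow]
      rfl
    have h8 : (c : G) ^ k.choose 2 • (g₀ * (e : G)) ^ k • (w : G) • (a : G ⧸ Γ) =
        (((c : G) ^ k.choose 2 * ((g₀ * (e : G)) ^ k * ((w : G) * a)) : G) : G ⧸ Γ) := rfl
    have h9 : ((cc (c * c₀) k : Z) : G) • ((a * b' * a⁻¹) * (e : G)) ^ k • (w : G) • (a : G ⧸ Γ) =
        ((((cc (c * c₀) k : Z) : G) * (((a * b' * a⁻¹) * (e : G)) ^ k * ((w : G) * a)) : G) : G ⧸ Γ) := rfl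
    rw [h8, h9, QuotientGroup.eq, pow_split hZ he, pow_split hZ he]
    -- both sides in terms of `e^k w`
    have hw : (w : G) ∈ Z := w.2
    have e1 : (c : G) ^ k.choose 2 * ((e : G) ^ k * g₀ ^ k * ((w : G) * a)) =
        ((cc (c * c₀) k : Z) : G) * ((e : G) ^ k * (a * b' * a⁻¹) ^ k * ((w : G) * a)) * γ ^ k := by
      have e2 : (e : G) ^ k * g₀ ^ k * ((w : G) * a) = (e : G) ^ k * ((w : G) * (g₀ ^ k * a)) := by
        rw [← mul_assoc (w : G), hZ _ hw (g₀ ^ k)]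
        simp only [mul_assoc]
      have e3 : (e : G) ^ k * (a * b' * a⁻¹) ^ k * ((w : G) * a) =
          (e : G) ^ k * ((w : G) * ((a * b' * a⁻¹) ^ k * a)) := by
        rw [← mul_assoc (w : G) ((a * b' * a⁻¹) ^ k), hZ _ hw ((a * b' * a⁻¹) ^ k)]
        simp only [mul_assoc]
      rw [e2, e3, h4, h5]
      have e4 : (cc c₀ k : G) ∈ Z := (cc c₀ k).2
      calc (c : G) ^ k.choose 2 * ((e : G) ^ k * ((w : G) * ((cc c₀ k : G) * ((a * b' * a⁻¹) ^ k * (a * γ ^ k)))))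
          = (c : G) ^ k.choose 2 * (((e : G) ^ k * (w : G)) * (cc c₀ k : G)) * ((a * b' * a⁻¹) ^ k * (a * γ ^ k)) := by
            simp only [mul_assoc]
        _ = (c : G) ^ k.choose 2 * ((cc c₀ k : G) * ((e : G) ^ k * (w : G))) * ((a * b' * a⁻¹) ^ k * (a * γ ^ k)) := by
            rw [hZ _ e4 ((e : G) ^ k * (w : G))]
        _ = _ := by simp only [mul_assoc]
    rw [e1, inv_mul_cancel_left]
    exact pow_mem hγ k

open scoped Pointwise in
theorem main [LocallyCompactSpace G] [T2Space G] {A : Set ℕ} (hA : LogDensityZero A) {u : ℕ → ℤ}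
    (hu : ∀ n, |u n| ≤ 1) (hK : Kf u A) (h2s : TwoStep Γ Z)
    {E : Set G} (hEZ : E ⊆ Z) (hEc : IsCompact E) (hT : Thin E) (f : C(G ⧸ Γ, ℂ)) :
    ShortDisjoint A Z E f u := by
  obtain ⟨hΓ, hcpt, hZ, hc, L, hL, hLZ, hL2⟩ := h2s
  have _ := hcpt
  have hEs : CompactSpace E := isCompact_iff_compactSpace.1 hEc
  obtain ⟨C₀, hC₀c, hC₀⟩ := exists_fund Γ
  set C : Set G := (fun q : G × G => q.1 * q.2 * q.1⁻¹) '' (C₀ ×ˢ C₀) with hCdef
  have hCc : IsCompact C := (hC₀c.prod hC₀c).image (by fun_prop)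
  have hCs : CompactSpace C := isCompact_iff_compactSpace.1 hCc
  have hCm : ∀ a ∈ C₀, ∀ b ∈ C₀, a * b * a⁻¹ ∈ C := fun a ha b hb => ⟨(a, b), ⟨ha, hb⟩, rfl⟩
  have hN : (Z ⊔ Γ).Normal := normal_of Γ Z hc
  have hNz : (Γ.subgroupOf Z).Normal := normalZ hZ
  have hKc : IsClosed ((Z ⊔ Γ : Subgroup G) : Set G) := by
    have h1 : ((Z ⊔ Γ : Subgroup G) : Set G) = L * (Γ : Set G) := by
      ext x
      have _ : Z.Normal := ⟨fun n hn g => by rw [← hZ n hn g, mul_inv_cancel_right]; exact hn⟩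
      constructor
      · intro hx
        obtain ⟨z, hz, γ, hγ, rfl⟩ := Subgroup.mem_sup_of_normal_left.1 hx
        obtain ⟨l, hl, γ', hγ', rfl⟩ := hL2 z hz
        exact ⟨l, hl, γ' * γ, mul_mem hγ' hγ, by simp [mul_assoc]⟩
      · rintro ⟨l, hl, γ, hγ, rfl⟩
        exact mul_mem (Subgroup.mem_sup_left (hLZ hl)) (Subgroup.mem_sup_right hγ)
    rw [h1]
    exact IsClosed.mul_left_of_isCompact hΓ hL
  have hKz : IsClosed ((Γ.subgroupOf Z : Subgroup Z) : Set Z) := by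
    have h1 : ((Γ.subgroupOf Z : Subgroup Z) : Set Z) = (fun z : Z => (z : G)) ⁻¹' (Γ : Set G) := by
      ext z
      exact Subgroup.mem_subgroupOf
    rw [h1]
    exact hΓ.preimage continuous_subtype_val
  let _ : CommGroup (G ⧸ (Z ⊔ Γ)) :=
    { QuotientGroup.Quotient.group (Z ⊔ Γ) with
      mul_comm := by
        intro x y
        induction x using QuotientGroup.induction_on with
        | H a =>
          induction y using QuotientGroup.induction_on with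
          | H b =>
            show ((a * b : G) : G ⧸ (Z ⊔ Γ)) = ((b * a : G) : G ⧸ (Z ⊔ Γ))
            rw [QuotientGroup.eq]
            have h1 := hc b⁻¹ a⁻¹
            have h2 : (a * b)⁻¹ * (b * a) = b⁻¹ * a⁻¹ * (b⁻¹)⁻¹ * (a⁻¹)⁻¹ := by group
            rw [h2]
            exact Subgroup.mem_sup_left h1 }
  let _ : CommGroup (Z ⧸ (Γ.subgroupOf Z)) :=
    { QuotientGroup.Quotient.group (Γ.subgroupOf Z) with
      mul_comm := by
        intro x y
        induction x using QuotientGroup.induction_on with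
        | H a =>
          induction y using QuotientGroup.induction_on with
          | H b =>
            show ((a * b : Z) : Z ⧸ (Γ.subgroupOf Z)) = ((b * a : Z) : Z ⧸ (Γ.subgroupOf Z))
            congr 1
            exact Subtype.ext (hZ a a.2 b) }
  have hcY : CompactSpace (G ⧸ (Z ⊔ Γ)) := by
    refine Function.Surjective.compactSpace (qm_cont Γ (Z ⊔ Γ) le_sup_right) ?_
    intro y
    induction y using QuotientGroup.induction_on with
    | H a => exact ⟨(a : G ⧸ Γ), rfl⟩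
  have hcZ : CompactSpace (Z ⧸ (Γ.subgroupOf Z)) := by
    have h1 : IsCompact ((fun z : Z => (z : G)) ⁻¹' L) := by
      refine Topology.IsInducing.subtypeVal.isCompact_preimage' hL ?_
      intro l hl
      exact ⟨⟨l, hLZ hl⟩, rfl⟩
    have h2 : ((QuotientGroup.mk : Z → Z ⧸ (Γ.subgroupOf Z)) '' ((fun z : Z => (z : G)) ⁻¹' L)) = Set.univ := by
      rw [Set.eq_univ_iff_forall]
      intro x
      induction x using QuotientGroup.induction_on with
      | H z =>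
        obtain ⟨l, hl, γ, hγ, h3⟩ := hL2 z z.2
        refine ⟨⟨l, hLZ hl⟩, hl, ?_⟩
        rw [QuotientGroup.eq, Subgroup.mem_subgroupOf]
        show l⁻¹ * (z : G) ∈ Γ
        rw [h3, inv_mul_cancel_left]
        exact hγ
    rw [← isCompact_univ_iff, ← h2]
    exact h1.image QuotientGroup.continuous_mk
  have hT2 : T2Space (G ⧸ (Z ⊔ Γ)) := inferInstance
  have hT2' : T2Space (Z ⧸ (Γ.subgroupOf Z)) := inferInstance
  set S : YY Γ Z C → YY Γ Z C := fun q =>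
    (((((q.2.1 : G) : G ⧸ (Z ⊔ Γ)), q.2.2) : (G ⧸ (Z ⊔ Γ)) × (Z ⧸ (Γ.subgroupOf Z))) * q.1, q.2) with hS
  have hπT : ∀ x, p2 Γ Z E C (T2 hZ E C x) = S (p2 Γ Z E C x) := by
    intro x
    rw [p2_T2 hZ hEZ]
    rfl
  have hπn : ∀ n x, p2 Γ Z E C ((T2 hZ E C)^[n] x) = S^[n] (p2 Γ Z E C x) := by
    intro n x
    induction n with
    | zero => rfl
    | succ n ih => rw [Function.iterate_succ_apply', hπT, ih, Function.iterate_succ_apply']
  have hC : ∀ x : XX Γ Z E C, ‖f x.1‖ ≤ ‖f‖ := fun x => ContinuousMap.norm_coe_le_norm f x.1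
  have hfib := fib_of_cov hu hK
    (fun c => UAPU (Y := (G ⧸ (Z ⊔ Γ)) × (Z ⧸ (Γ.subgroupOf Z))) (C := C × (Z ⧸ (Γ.subgroupOf Z)))
      (fun g => (((g.1 : G) : G ⧸ (Z ⊔ Γ)), g.2)) Set.univ c)
    (T2_cont hZ E C) (p2_cont Γ Z E C) hπT
    (F := fun x : XX Γ Z E C => f x.1) (f.continuous.comp continuous_fst) hC (fun δ hδ => by
      obtain ⟨H, hH, h1⟩ := cov2 hZ hL hLZ hL2 hEZ hT C f δ hδ
      exact ⟨H, hH, Set.univ, isClosed_univ, Mostly_univ hδ.le, fun y _ => h1 y⟩)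
  have hlog := log_fib hu hA hπT (norm_nonneg f) hC hfib
  intro ε hε
  rcases E.eq_empty_or_nonempty with hem | hne
  · subst hem
    have h0 : ∀ (g₀ : G) (c : Z) (x₀ : G ⧸ Γ) n H, windowSup Z (∅ : Set G) g₀ c f u x₀ n H = 0 :=
      fun _ _ _ _ _ => Real.iSup_of_isEmpty _
    refine ⟨⟨1, 1, fun H hH N hN g₀ c x₀ => ?_⟩, ⟨0, fun H _ => ⟨0, fun N _ _ g₀ c x₀ => ?_⟩⟩⟩
    · simp only [h0, mul_zero, sum_const_zero]
      rw [pow_one] at hN
      have := Real.log_nonneg (show (1 : ℝ) ≤ N by exact_mod_cast hH.trans hN)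
      positivity
    · simp only [h0, sum_const_zero]
      positivity
  -- the data for the near-maximisers
  have hdata : ∀ (g₀ : G) (c : Z) (x₀ : G ⧸ Γ) (H : ℕ), 0 < H → ∃ (y : YY Γ Z C) (x : ℕ → XX Γ Z E C),
      (∀ k, p2 Γ Z E C (x k) = S^[k] y) ∧
      ∀ n, windowSup Z E g₀ c f u x₀ n H ≤
        ‖∑ m ∈ range H, tw u 0 (n + 1 + m) * f ((T2 hZ E C)^[m] (x (n + 1))).1‖ + ε / 8 * H := by
    intro g₀ c x₀ H hH
    have hH0 : (0 : ℝ) < H := by exact_mod_cast hH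
    obtain ⟨b, c', hbc⟩ := orbit_T2 hZ hc hC₀ hEZ hCm g₀ c x₀
    choose p hp using fun n => choose_near Z E g₀ c f u x₀ n H hne (show 0 < ε / 8 * H by positivity)
    refine ⟨((qm Γ (Z ⊔ Γ) le_sup_right x₀, 1), (b, c')),
      fun k => (T2 hZ E C)^[k] (((p (k - 1)).2 : G) • x₀, (1, ((p (k - 1)).1, (b, c')))), fun k => ?_, fun n => ?_⟩
    · show p2 Γ Z E C ((T2 hZ E C)^[k] (((p (k - 1)).2 : G) • x₀, (1, ((p (k - 1)).1, (b, c'))))) = _
      rw [hπn]
      congr 1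
      show ((qm Γ (Z ⊔ Γ) le_sup_right (((p (k - 1)).2 : G) • x₀), (1 : Z ⧸ (Γ.subgroupOf Z))), (b, c')) = _
      rw [qm_smul, smul_base hZ (p (k - 1)).2.2]
    · have h1 := hp n
      have h2 : ∑ h ∈ Icc 1 H, f ((c : G) ^ (h + n).choose 2 • (g₀ * ((p n).1 : G)) ^ (h + n) • ((p n).2 : G) • x₀) *
          ((u (n + h) : ℤ) : ℂ) = ∑ m ∈ range H, tw u 0 (n + 1 + m) *
            f ((T2 hZ E C)^[m] ((T2 hZ E C)^[n + 1] (((p n).2 : G) • x₀, (1, ((p n).1, (b, c')))))).1 := by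
        have h3 : Icc 1 H = Ico 1 (H + 1) := by
          ext k
          simp only [mem_Icc, mem_Ico]
          omega
        rw [h3, sum_Ico_eq_sum_range, Nat.add_sub_cancel]
        refine sum_congr rfl fun m _ => ?_
        have h4 : (T2 hZ E C)^[m] ((T2 hZ E C)^[n + 1] (((p n).2 : G) • x₀, (1, ((p n).1, (b, c'))))) =
            (T2 hZ E C)^[1 + m + n] (((p n).2 : G) • x₀, (1, ((p n).1, (b, c')))) := by
          have h6 : m + (n + 1) = 1 + m + n := by omega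
          rw [← Function.iterate_add_apply, h6]
        rw [h4, hbc]
        have h5 : tw u 0 (n + 1 + m) = ((u (n + (1 + m)) : ℤ) : ℂ) := by
          unfold tw Pool.Agent.Helper602.MK.ee
          rw [zero_mul, Complex.ofReal_zero, mul_zero, zero_mul, Complex.exp_zero, mul_one, add_assoc]
        rw [h5, mul_comm]
      rw [h2] at h1
      simpa only [Nat.add_sub_cancel] using h1
  have hW0 : ∀ (x : ℕ → XX Γ Z E C) H k,
      ‖∑ m ∈ range H, tw u 0 (k + m) * f ((T2 hZ E C)^[m] (x k)).1‖ ≤ H * ‖f‖ := by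
    intro x H k
    refine (norm_sum_le _ _).trans ((sum_le_sum (g := fun _ => ‖f‖) fun m _ => ?_).trans (le_of_eq ?_))
    · rw [norm_mul]
      calc ‖tw u 0 (k + m)‖ * _ ≤ 1 * ‖f‖ := mul_le_mul (norm_tw hu 0 _) (hC _) (norm_nonneg _) zero_le_one
        _ = ‖f‖ := one_mul _
    · rw [sum_const, card_range, nsmul_eq_mul]
  constructor
  · obtain ⟨H₀, K, h1⟩ := hlog (ε / 8) (by positivity)
    refine ⟨H₀ + 3, K + 1, fun H hH N hN g₀ c x₀ => ?_⟩
    have hH0 : (0 : ℝ) < H := by exact_mod_cast (by omega : 0 < H)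
    obtain ⟨y, x, hx, h2⟩ := hdata g₀ c x₀ H (by omega)
    have hKN : H ^ K ≤ N + 1 := (Nat.pow_le_pow_right (by omega) (by omega)).trans (hN.trans (Nat.le_succ N))
    have hHN : H ≤ N := le_trans (by
      calc H = H ^ 1 := (pow_one H).symm
        _ ≤ H ^ (K + 1) := Nat.pow_le_pow_right (by omega) (by omega)) hN
    have hN3 : (3 : ℝ) ≤ N := by exact_mod_cast (by omega : 3 ≤ N)
    have hlogN : 1 ≤ Real.log N := by
      rw [Real.le_log_iff_exp_le (by linarith)]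
      linarith [Real.exp_one_lt_d9]
    have h3 := h1 H (by omega) (N + 1) hKN _ (Set.mem_univ _) x hx 0
    set W : ℕ → ℝ := fun k => ‖∑ m ∈ range H, tw u 0 (k + m) * f ((T2 hZ E C)^[m] (x k)).1‖ with hW
    have hWn : ∀ k, 0 ≤ W k := fun k => norm_nonneg _
    have h4 : ∀ n ∈ Icc 1 N, 1 / (n : ℝ) * windowSup Z E g₀ c f u x₀ n H ≤
        2 * (1 / ((n + 1 : ℕ) : ℝ) * W (n + 1)) + ε / 8 * H * (1 / n) := by
      intro n hn
      rw [mem_Icc] at hn
      have hn1 : (1 : ℝ) ≤ n := by exact_mod_cast hn.1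
      have h5 := mul_le_mul_of_nonneg_left (h2 n) (show (0 : ℝ) ≤ 1 / n by positivity)
      have h6 : (1 : ℝ) / n ≤ 2 * (1 / ((n + 1 : ℕ) : ℝ)) := by
        push_cast
        rw [mul_one_div, div_le_div_iff₀ (by linarith) (by linarith)]
        linarith
      have h7 : 1 / (n : ℝ) * W (n + 1) ≤ 2 * (1 / ((n + 1 : ℕ) : ℝ)) * W (n + 1) :=
        mul_le_mul_of_nonneg_right h6 (hWn _)
      have h8 : 1 / (n : ℝ) * (W (n + 1) + ε / 8 * H) = 1 / (n : ℝ) * W (n + 1) + ε / 8 * H * (1 / n) := by ring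
      have h9 : 1 / (n : ℝ) * windowSup Z E g₀ c f u x₀ n H ≤ 1 / (n : ℝ) * (W (n + 1) + ε / 8 * H) := h5
      linarith
    have h5 : ∑ n ∈ Icc 1 N, 1 / ((n + 1 : ℕ) : ℝ) * W (n + 1) ≤ ∑ k ∈ Icc 1 (N + 1), 1 / (k : ℝ) * W k := by
      rw [← sum_image (f := fun k : ℕ => 1 / (k : ℝ) * W k) (g := fun n => n + 1) (s := Icc 1 N)
        fun a _ b _ hab => by simpa using hab]
      refine sum_le_sum_of_subset_of_nonneg ?_ fun k _ _ => mul_nonneg (by positivity) (hWn k)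
      intro k hk
      obtain ⟨n, hn, rfl⟩ := mem_image.1 hk
      rw [mem_Icc] at hn ⊢
      omega
    have h6 : Real.log ((N + 1 : ℕ) : ℝ) ≤ 2 * Real.log N := by
      have e2 : 2 * Real.log N = Real.log ((N : ℝ) ^ 2) := by rw [Real.log_pow]; norm_num
      rw [e2]
      refine Real.log_le_log (by positivity) ?_
      push_cast
      nlinarith
    have h7 := Pool.Agent.R296.SM.harm_le N
    calc ∑ n ∈ Icc 1 N, 1 / (n : ℝ) * windowSup Z E g₀ c f u x₀ n H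
        ≤ ∑ n ∈ Icc 1 N, (2 * (1 / ((n + 1 : ℕ) : ℝ) * W (n + 1)) + ε / 8 * H * (1 / n)) := sum_le_sum h4
      _ = 2 * ∑ n ∈ Icc 1 N, 1 / ((n + 1 : ℕ) : ℝ) * W (n + 1) + ε / 8 * H * ∑ n ∈ Icc 1 N, 1 / (n : ℝ) := by
          rw [sum_add_distrib, mul_sum, mul_sum]
      _ ≤ 2 * (ε / 8 * (H * Real.log ((N + 1 : ℕ) : ℝ))) + ε / 8 * H * (1 + Real.log N) :=
          add_le_add (mul_le_mul_of_nonneg_left (h5.trans h3) (by norm_num))
            (mul_le_mul_of_nonneg_left h7 (by positivity))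
      _ ≤ 2 * (ε / 8 * (H * (2 * Real.log N))) + ε / 8 * H * (2 * Real.log N) := by
          refine add_le_add ?_ (mul_le_mul_of_nonneg_left (by linarith) (by positivity))
          refine mul_le_mul_of_nonneg_left (mul_le_mul_of_nonneg_left (mul_le_mul_of_nonneg_left h6 hH0.le)
            (by positivity)) (by norm_num)
      _ ≤ ε * (H * Real.log N) := by
          have : 0 ≤ ε * (H * Real.log N) := by positivity
          linarith
  · obtain ⟨H₀, h1⟩ := hfib (ε / 8) (by positivity)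
    refine ⟨H₀ + 1, fun H hH => ?_⟩
    have hH0 : (0 : ℝ) < H := by exact_mod_cast (by omega : 0 < H)
    obtain ⟨N₀, h3⟩ := h1 H (by omega)
    obtain ⟨N₁, hN₁⟩ := exists_nat_ge (16 * ‖f‖ / ε)
    refine ⟨N₀ + N₁, fun N hN hNA g₀ c x₀ => ?_⟩
    obtain ⟨y, x, hx, h2⟩ := hdata g₀ c x₀ H (by omega)
    have h4 := h3 N (by omega) hNA _ (Set.mem_univ _) x hx 0
    set W : ℕ → ℝ := fun k => ‖∑ m ∈ range H, tw u 0 (k + m) * f ((T2 hZ E C)^[m] (x k)).1‖ with hW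
    have hWn : ∀ k, 0 ≤ W k := fun k => norm_nonneg _
    have hW1 : ∀ k, W k ≤ H * ‖f‖ := fun k => hW0 x H k
    have h5 : ∑ n ∈ Icc 1 N, W (n + 1) ≤ ∑ k ∈ range (N + 2), W k := by
      rw [← sum_image (f := fun k : ℕ => W k) (g := fun n => n + 1) (s := Icc 1 N)
        fun a _ b _ hab => by simpa using hab]
      refine sum_le_sum_of_subset_of_nonneg ?_ fun k _ _ => hWn k
      intro k hk
      obtain ⟨n, hn, rfl⟩ := mem_image.1 hk
      rw [mem_Icc] at hn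
      rw [mem_range]
      omega
    rw [sum_range_succ, sum_range_succ] at h5
    have h6 : ∑ k ∈ range N, W k ≤ ε / 8 * (H * N) := h4
    have h7 : (16 * ‖f‖ / ε : ℝ) ≤ N := hN₁.trans (by exact_mod_cast (by omega : N₁ ≤ N))
    rw [div_le_iff₀ hε] at h7
    have h8 : (H : ℝ) * ‖f‖ ≤ ε / 16 * (H * N) := by nlinarith
    have h9 := hW1 N
    have h10 := hW1 (N + 1)
    calc ∑ n ∈ Icc 1 N, windowSup Z E g₀ c f u x₀ n H ≤ ∑ n ∈ Icc 1 N, (W (n + 1) + ε / 8 * H) :=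
          sum_le_sum fun n _ => h2 n
      _ = ∑ n ∈ Icc 1 N, W (n + 1) + N * (ε / 8 * H) := by
          rw [sum_add_distrib, sum_const, Nat.card_Icc, nsmul_eq_mul, Nat.add_sub_cancel]
      _ ≤ ε * (H * N) := by
          have : 0 ≤ ε * (H * N) := by positivity
          linarith

omit [IsTopologicalGroup G] in
theorem thin_of_null {φ : ℝ → G} (hφ : Continuous φ) (hadd : ∀ s t, φ (s + t) = φ s * φ t) {E₀ : Set ℝ}
    (hE : IsCompact E₀) (h0 : MeasureTheory.volume E₀ = 0) : Thin (φ '' E₀) := by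
  classical
  have hφ0 : φ 0 = 1 := by
    have h1 := hadd 0 0
    rw [add_zero] at h1
    exact left_eq_mul.1 h1
  have hneg : ∀ t, φ (-t) = (φ t)⁻¹ := by
    intro t
    rw [eq_inv_iff_mul_eq_one, ← hadd, neg_add_cancel, hφ0]
  have hpow : ∀ (m : ℕ) t, φ t ^ m = φ (m * t) := by
    intro m t
    induction m with
    | zero => simp [hφ0]
    | succ m ih =>
      rw [pow_succ, ih, ← hadd]
      congr 1
      push_cast
      ring
  intro U hU δ hδ
  have h1 : φ ⁻¹' U ∈ 𝓝 (0 : ℝ) := hφ.continuousAt.preimage_mem_nhds (by rwa [hφ0])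
  obtain ⟨r, hr, h2⟩ := Metric.mem_nhds_iff.1 h1
  obtain ⟨H, hH, s, hs1, hs2, hs3⟩ := null_cells hE h0 hr hδ
  refine ⟨H, hH, s.image φ, ?_, ?_, ?_⟩
  · intro a ha
    obtain ⟨t, ht, rfl⟩ := mem_image.1 ha
    exact ⟨t, hs1 t ht, rfl⟩
  · exact le_trans (by exact_mod_cast card_image_le) hs2
  · rintro _ ⟨t, ht, rfl⟩
    obtain ⟨t', ht', h3⟩ := hs3 t ht
    refine ⟨φ t', mem_image.2 ⟨t', ht', rfl⟩, fun m hm => ?_⟩
    rw [← hneg, ← hadd, hpow]
    refine h2 ?_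
    rw [Metric.mem_ball, Real.dist_eq, sub_zero, ← sub_eq_add_neg]
    exact h3 m hm

end

theorem kf_of {E F : Set ℕ} {f : ℕ → ℤ} (h : ∀ h : ℕ, 1 ≤ h → ∀ ε : ℝ, 0 < ε → ∃ N₀ : ℕ, ∀ N : ℕ, N₀ ≤ N →
    N ∉ E → ∀ α : ℝ, ‖Pool.Agent.Y842.PH.Cr f h N α‖ ≤ ε * N) (hEF : E ⊆ F) : Kf f F := by
  intro k hk ε hε
  obtain ⟨N₀, h1⟩ := h k hk ε hε
  exact ⟨N₀, fun N hN hNE => h1 N hN (fun h3 => hNE (hEF h3))⟩

/-- **Theorem.** There is one set `A` of logarithmic density zero such that (A) and (B) hold. -/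
theorem result : ∃ A : Set ℕ, LogDensityZero A ∧ PartA A ∧ PartB A := by
  obtain ⟨E₁, hE₁, h1⟩ := Pool.Agent.Y842.PH.one_E (Pool.Agent.Y304.U.avc Pool.Agent.Y304.U.pw)
    Pool.Agent.TH823.MRS.mob Pool.Agent.TH823.MRS.mob_bdd Pool.Agent.TH823.MRS.mob_flip
    Pool.Agent.TH823.MRS.expo_mob
  obtain ⟨E₂, hE₂, h2⟩ := Pool.Agent.Y842.PH.one_E (Pool.Agent.Y304.U.avc Pool.Agent.Y304.U.pw)
    Pool.Agent.H376R2.MR.lam Pool.Agent.Y842.EL.abs_lam Pool.Agent.TH823.MRS.lam_flip Pool.Agent.TH823.MRS.expo_lam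
  have hE : LogDensityZero (E₁ ∪ E₂) := Pool.Agent.Y842.EL.LZ_union hE₁ hE₂
  have hmu : ∀ n, |mu n| ≤ 1 := fun n => ArithmeticFunction.abs_moebius_le_one
  have hlam : ∀ n, |lam n| ≤ 1 := fun n => by
    unfold lam
    rw [abs_pow, abs_neg, abs_one, one_pow]
  have s1 : Kf mu (E₁ ∪ E₂) := kf_of h1 Set.subset_union_left
  have s2 : Kf lam (E₁ ∪ E₂) := kf_of h2 Set.subset_union_right
  refine ⟨E₁ ∪ E₂, hE, ?_, ?_⟩
  · intro G _ _ _ _ _ Γ Z h2s E hEZ hEc hT f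
    exact ⟨main hE hmu s1 h2s hEZ hEc hT f, main hE hlam s2 h2s hEZ hEc hT f⟩
  · intro G _ _ _ _ _ Γ Z h2s φ hφ hadd hφZ E₀ hE₀ h0 f
    have hT := thin_of_null hφ hadd hE₀ h0
    have hEZ : φ '' E₀ ⊆ Z := by
      rintro _ ⟨t, _, rfl⟩
      exact hφZ t
    exact ⟨main hE hmu s1 h2s hEZ (hE₀.image hφ) hT f, main hE hlam s2 h2s hEZ (hE₀.image hφ) hT f⟩

end Pool.Agent.Results.MP_663568_nt.TwoStepAllRotations
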